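import Pool.Agent.helper4.RC.Transfer

/-! MP_e02c34_co : permanently free vertices, their installation, and the linear bound (helper4). -/

namespace RC

open Function

set_option linter.unusedVariables false
set_option linter.unusedSectionVars false

variable {V κ : Type*} [DecidableEq V] {G : SimpleGraph V} {L : V → Finset κ}
variable [Fintype V] [DecidableRel G.Adj]

theorem rich_free [DecidableEq κ] {φ : V → κ} (h : IsCol G L φ) {v : V}
    (hd : G.degree v + 2 ≤ (L v).card) : Free G L φ v := by
  classical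
  have h1 : ((G.neighborFinset v).image φ).card ≤ G.degree v := by
    rw [← SimpleGraph.card_neighborFinset_eq_degree]
    exact Finset.card_image_le
  have h2 : (insert (φ v) ((G.neighborFinset v).image φ)).card ≤ G.degree v + 1 :=
    (Finset.card_insert_le _ _).trans (by omega)
  have h3 : ∃ x ∈ L v, x ∉ insert (φ v) ((G.neighborFinset v).image φ) := by
    by_contra hcon
    push Not at hcon
    have := Finset.card_le_card (s := L v) (t := insert (φ v) ((G.neighborFinset v).image φ)) hcon
    omega
  obtain ⟨x, hx, hx2⟩ := h3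
  rw [Finset.mem_insert, not_or] at hx2
  refine ⟨x, hx, hx2.1, fun w hw e => hx2.2 ?_⟩
  exact Finset.mem_image.2 ⟨w, by simpa using hw, e⟩

/-- the neighbourhood of `v` is not a clique -/
def NonSimp (G : SimpleGraph V) (v : V) : Prop :=
  ∃ a b, G.Adj v a ∧ G.Adj v b ∧ a ≠ b ∧ ¬ G.Adj a b

theorem exists_anchor [DecidableEq κ] (hcard : ∀ x, G.degree x + 1 ≤ (L x).card)
    {v : V} (hv : NonSimp G v) :
    ∃ a b t, G.Adj v a ∧ G.Adj v b ∧ ¬ G.Adj a b ∧ t ∈ L a ∧ t ∈ L b ∧
      ∀ ψ, IsCol G L ψ → ψ a = t → ψ b = t → Free G L ψ v := by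
  classical
  obtain ⟨a₀, b₀, ha₀, hb₀, hne₀, hab₀⟩ := hv
  by_contra hcon
  push Not at hcon
  have hirr : ∀ a, ¬ G.Adj a a := fun a => G.loopless.irrefl a
  -- `v` is not rich
  have hrich : (L v).card ≤ G.degree v + 1 := by
    by_contra hr
    have hne : (L a₀).Nonempty := by
      rw [← Finset.card_pos]; have := hcard a₀; omega
    obtain ⟨t, ht⟩ := hne
    obtain ⟨ψ, h1, _, _, h4⟩ := hcon a₀ a₀ t ha₀ ha₀ (hirr _) ht ht
    exact h4 (rich_free h1 (by omega))
  have hsub : ∀ a, G.Adj v a → L a ⊆ L v := by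
    intro a ha t ht
    by_contra htv
    obtain ⟨ψ, h1, h2, _, h4⟩ := hcon a a t ha ha (hirr _) ht ht
    have := (frz_of_not_free h1 (hcard v) h4 a ha).2.1
    rw [h2] at this
    exact htv this
  have hdisj : ∀ a b, G.Adj v a → G.Adj v b → a ≠ b → ¬ G.Adj a b → Disjoint (L a) (L b) := by
    intro a b ha hb hab hadj
    rw [Finset.disjoint_left]
    intro t hta htb
    obtain ⟨ψ, h1, h2, h3, h4⟩ := hcon a b t ha hb hadj hta htb
    exact hab ((frz_of_not_free h1 (hcard v) h4 b hb).2.2 a ha (h2.trans h3.symm))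
  -- a maximal independent subset of the neighbourhood
  let fam : Finset (Finset V) := (G.neighborFinset v).powerset.filter fun I =>
    a₀ ∈ I ∧ b₀ ∈ I ∧ ∀ x ∈ I, ∀ y ∈ I, ¬ G.Adj x y
  have hfam : fam.Nonempty := by
    refine ⟨{a₀, b₀}, ?_⟩
    simp only [fam, Finset.mem_filter, Finset.mem_powerset]
    refine ⟨?_, by simp, by simp, ?_⟩
    · intro x hx
      simp only [Finset.mem_insert, Finset.mem_singleton] at hx
      rcases hx with rfl | rfl <;> simpa
    · intro x hx y hy
      simp only [Finset.mem_insert, Finset.mem_singleton] at hx hy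
      rcases hx with rfl | rfl <;> rcases hy with rfl | rfl
      · exact hirr _
      · exact hab₀
      · exact fun e => hab₀ e.symm
      · exact hirr _
  obtain ⟨I, hI, hmax⟩ := Finset.exists_max_image fam Finset.card hfam
  simp only [fam, Finset.mem_filter, Finset.mem_powerset] at hI hmax
  obtain ⟨hIN, haI, hbI, hind⟩ := hI
  have hIv : ∀ x ∈ I, G.Adj v x := fun x hx => by simpa using hIN hx
  have hcover : G.neighborFinset v ⊆
      I.biUnion fun a => (insert a (G.neighborFinset a)).erase v := by
    intro x hx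
    rw [SimpleGraph.mem_neighborFinset] at hx
    rw [Finset.mem_biUnion]
    have hxv : x ≠ v := (G.ne_of_adj hx).symm
    by_cases hxI : x ∈ I
    · exact ⟨x, hxI, by simp [hxv]⟩
    · by_contra hno
      push Not at hno
      have hnadj : ∀ a ∈ I, ¬ G.Adj a x := by
        intro a ha hax
        exact hno a ha (by simp [hxv, hax])
      have := hmax (insert x I) ⟨by
        intro y hy
        rcases Finset.mem_insert.1 hy with rfl | hy
        · simpa using hx
        · exact hIN hy, Finset.mem_insert_of_mem haI, Finset.mem_insert_of_mem hbI, by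
        intro y hy z hz
        rcases Finset.mem_insert.1 hy with hy1 | hy1 <;>
          rcases Finset.mem_insert.1 hz with hz1 | hz1
        · rw [hy1, hz1]; exact hirr _
        · rw [hy1]; exact fun e => hnadj z hz1 e.symm
        · rw [hz1]; exact hnadj y hy1
        · exact hind y hy1 z hz1⟩
      rw [Finset.card_insert_of_notMem hxI] at this
      omega
  have hdeg : G.degree v ≤ ∑ a ∈ I, G.degree a := by
    rw [← SimpleGraph.card_neighborFinset_eq_degree]
    refine (Finset.card_le_card hcover).trans (Finset.card_biUnion_le.trans ?_)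
    apply Finset.sum_le_sum
    intro a ha
    have hav := hIv a ha
    rw [Finset.card_erase_of_mem (by simp [hav.symm]), Finset.card_insert_of_notMem (by simp),
      SimpleGraph.card_neighborFinset_eq_degree]
    omega
  have hlist : ∑ a ∈ I, (L a).card ≤ (L v).card := by
    rw [← Finset.card_biUnion]
    · apply Finset.card_le_card
      intro t ht
      obtain ⟨a, ha, hta⟩ := Finset.mem_biUnion.1 ht
      exact hsub a (hIv a ha) hta
    · intro a ha b hb hab
      exact hdisj a b (hIv a ha) (hIv b hb) hab (hind a ha b hb)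
  have hsum : ∑ a ∈ I, (G.degree a + 1) ≤ ∑ a ∈ I, (L a).card :=
    Finset.sum_le_sum fun a _ => hcard a
  rw [Finset.sum_add_distrib] at hsum
  simp only [Finset.sum_const, smul_eq_mul, mul_one] at hsum
  have h2 : 2 ≤ I.card := by
    have : ({a₀, b₀} : Finset V) ⊆ I := by
      intro x hx
      simp only [Finset.mem_insert, Finset.mem_singleton] at hx
      rcases hx with rfl | rfl
      · exact haI
      · exact hbI
    have h3 := Finset.card_le_card this
    rwa [Finset.card_pair hne₀] at h3
  omega

theorem near_nonSimp (hconn : G.Connected) (x : V) :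
    (∃ v, G.dist x v ≤ 1 ∧ NonSimp G v) ∨ ∀ y, G.dist x y ≤ 1 := by
  by_cases h : ∃ v, G.dist x v ≤ 1 ∧ NonSimp G v
  · exact Or.inl h
  right
  push Not at h
  have hcl : ∀ z z', (z = x ∨ G.Adj x z) → G.Adj z z' → (z' = x ∨ G.Adj x z') := by
    intro z z' hz hzz
    rcases hz with rfl | hz
    · exact Or.inr hzz
    · by_contra hno
      push Not at hno
      apply h z (by rw [SimpleGraph.dist_eq_one_iff_adj.2 hz])
      exact ⟨x, z', hz.symm, hzz, fun e => hno.1 e.symm, hno.2⟩
  have hall : ∀ y (W : G.Walk y x), (y = x ∨ G.Adj x y) := by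
    intro y W
    induction W with
    | nil => exact Or.inl rfl
    | cons hadj q ih => exact hcl _ _ (ih h hcl) hadj.symm
  intro y
  obtain ⟨W⟩ := hconn y x
  rcases hall y W with rfl | hy
  · simp
  · rw [SimpleGraph.dist_eq_one_iff_adj.2 hy]

/-- the ball of radius two -/
noncomputable def ball (G : SimpleGraph V) (s : V) : Finset V := by
  classical exact Finset.univ.filter fun x => G.dist x s ≤ 2

theorem mem_ball {s x : V} : x ∈ ball G s ↔ G.dist x s ≤ 2 := by
  classical simp [ball]

/-- an installed configuration of centres -/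
structure Cfg (G : SimpleGraph V) (L : V → Finset κ) (S M : Finset V) (γ : V → κ) : Prop where
  free : ∀ s ∈ S, ∀ ψ, IsCol G L ψ → (∀ x ∈ M, ψ x = γ x) → Free G L ψ s
  near : ∀ x ∈ M, ∃ s ∈ S, G.dist x s ≤ 1
  inst : ∀ α, IsCol G L α → ∃ α', (∀ x ∈ M, α' x = γ x) ∧
    Reach G L (66 * (S.biUnion (ball G)).card) α α'

theorem Cfg.ext [DecidableEq κ] (hconn : G.Connected)
    (hcard : ∀ x, G.degree x + 1 ≤ (L x).card)
    (hd : ∀ x, 3 ≤ G.degree x) {S M : Finset V} {γ : V → κ} (hC : Cfg G L S M γ) {v : V}
    (hv : NonSimp G v) (hfar : ∀ s ∈ S, 5 ≤ G.dist v s) (hnear : ∃ s ∈ S, G.dist v s ≤ 7) :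
    ∃ M' γ', Cfg G L (insert v S) M' γ' := by
  classical
  obtain ⟨a, b, t, hva, hvb, hab, hta, htb, hfree⟩ := exists_anchor (L := L) hcard hv
  obtain ⟨s₀, hs₀, hs₀v⟩ := hnear
  have tri : ∀ x y z, G.dist x z ≤ G.dist x y + G.dist y z := fun x y z => hconn.dist_triangle
  have hM2 : ∀ x, G.dist v x ≤ 2 → x ∉ M := by
    intro x hx hxM
    obtain ⟨s, hs, hxs⟩ := hC.near x hxM
    have h1 := hfar s hs
    have h2 := tri v x s
    omega
  have hdva : G.dist v a = 1 := SimpleGraph.dist_eq_one_iff_adj.2 hva
  have hdvb : G.dist v b = 1 := SimpleGraph.dist_eq_one_iff_adj.2 hvb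
  have haM : a ∉ M := hM2 a (by omega)
  have hbM : b ∉ M := hM2 b (by omega)
  have hNM : ∀ c, G.dist v c = 1 → ∀ x, G.Adj c x → x ∉ M := by
    intro c hc x hx
    apply hM2
    have h1 := tri v c x
    have h2 : G.dist c x = 1 := SimpleGraph.dist_eq_one_iff_adj.2 hx
    omega
  have hs₀a : G.dist s₀ a ≤ 8 := by
    have h1 := tri s₀ v a
    have h2 : G.dist s₀ v = G.dist v s₀ := SimpleGraph.dist_comm
    omega
  have hs₀b : G.dist s₀ b ≤ 8 := by
    have h1 := tri s₀ v b
    have h2 : G.dist s₀ v = G.dist v s₀ := SimpleGraph.dist_comm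
    omega
  have hγ : ∀ x ∈ M, update (update γ a t) b t x = γ x := by
    intro x hx
    have h1 : x ≠ b := fun e => hbM (e ▸ hx)
    have h2 : x ≠ a := fun e => haM (e ▸ hx)
    rw [update_of_ne h1, update_of_ne h2]
  have hγa : update (update γ a t) b t a = t := by
    by_cases he : a = b
    · subst he; rw [update_self]
    · rw [update_of_ne he, update_self]
  refine ⟨insert a (insert b M), update (update γ a t) b t, ?_, ?_, ?_⟩
  · intro s hs ψ hψ hag
    have hag' : ∀ x ∈ M, ψ x = γ x := by
      intro x hx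
      rw [hag x (by simp [hx]), hγ x hx]
    rcases Finset.mem_insert.1 hs with rfl | hs
    · apply hfree ψ hψ
      · rw [hag a (by simp), hγa]
      · rw [hag b (by simp), update_self]
    · exact hC.free s hs ψ hψ hag'
  · intro x hx
    rcases Finset.mem_insert.1 hx with rfl | hx
    · refine ⟨v, Finset.mem_insert_self _ _, ?_⟩
      rw [SimpleGraph.dist_comm]; omega
    rcases Finset.mem_insert.1 hx with rfl | hx
    · refine ⟨v, Finset.mem_insert_self _ _, ?_⟩
      rw [SimpleGraph.dist_comm]; omega
    obtain ⟨s, hs, hxs⟩ := hC.near x hx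
    exact ⟨s, Finset.mem_insert_of_mem hs, hxs⟩
  · intro α hα
    obtain ⟨α', hα', hr⟩ := hC.inst α hα
    have hcol' := hr.right_col
    obtain ⟨α₁, hr₁, h₁a, h₁⟩ := set_lemma hconn hcard hd hcol' (v := a) (w := s₀) (c := t) hta
      (R := 8) hs₀a (by
        intro ψ hψ hag
        apply hC.free s₀ hs₀ ψ hψ
        intro x hx
        rw [hag x (fun e => haM (e ▸ hx)) (fun e => hNM a hdva x (mem_nb.1 e).1 hx)]
        exact hα' x hx)
    have hcol₁ := hr₁.right_col
    have hM₁ : ∀ x ∈ M, α₁ x = γ x := by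
      intro x hx
      rw [h₁ x (fun e => haM (e ▸ hx)) (fun e => hNM a hdva x (mem_nb.1 e).1 hx)]
      exact hα' x hx
    obtain ⟨α₂, hr₂, h₂b, h₂⟩ := set_lemma hconn hcard hd hcol₁ (v := b) (w := s₀) (c := t) htb
      (R := 8) hs₀b (by
        intro ψ hψ hag
        apply hC.free s₀ hs₀ ψ hψ
        intro x hx
        rw [hag x (fun e => hbM (e ▸ hx)) (fun e => hNM b hdvb x (mem_nb.1 e).1 hx)]
        exact hM₁ x hx)
    have hM₂ : ∀ x ∈ M, α₂ x = γ x := by
      intro x hx
      rw [h₂ x (fun e => hbM (e ▸ hx)) (fun e => hNM b hdvb x (mem_nb.1 e).1 hx)]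
      exact hM₁ x hx
    have h₂a : α₂ a = t := by
      by_cases he : a = b
      · rw [he]; exact h₂b
      · rw [h₂ a he (fun e => hab (mem_nb.1 e).1.symm)]
        exact h₁a
    refine ⟨α₂, ?_, ((hr.trans hr₁).trans hr₂).mono ?_⟩
    · intro x hx
      rcases Finset.mem_insert.1 hx with rfl | hx
      · rw [hγa]; exact h₂a
      rcases Finset.mem_insert.1 hx with rfl | hx
      · rw [update_self]; exact h₂b
      rw [hγ x hx]; exact hM₂ x hx
    · -- the cost
      have hdisj : Disjoint (ball G v) (S.biUnion (ball G)) := by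
        rw [Finset.disjoint_left]
        intro x hx hx'
        obtain ⟨s, hs, hxs⟩ := Finset.mem_biUnion.1 hx'
        rw [mem_ball] at hx hxs
        have h1 := tri v x s
        have h2 : G.dist v x = G.dist x v := SimpleGraph.dist_comm
        have h3 := hfar s hs
        omega
      rw [Finset.biUnion_insert, Finset.card_union_of_disjoint hdisj]
      have hnb : ∀ (c : V) (φ : V → κ), G.dist v c = 1 → (nb G φ c t).card ≤ (ball G v).card := by
        intro c φ hc
        apply Finset.card_le_card
        intro x hx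
        have hx' := (mem_nb.1 hx).1
        rw [mem_ball]
        have h1 := tri x c v
        have h2 : G.dist x c = 1 := SimpleGraph.dist_eq_one_iff_adj.2 hx'.symm
        have h3 : G.dist c v = G.dist v c := SimpleGraph.dist_comm
        omega
      have hpos : 0 < (ball G v).card := Finset.card_pos.2 ⟨v, by rw [mem_ball]; simp⟩
      have h1 := hnb a α' hdva
      have h2 := hnb b α₁ hdvb
      omega

theorem linear_bound [DecidableEq κ] (hconn : G.Connected)
    (hcard : ∀ x, G.degree x + 1 ≤ (L x).card)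
    (hd : ∀ x, 3 ≤ G.degree x) {w : V} (hw : G.degree w + 2 ≤ (L w).card)
    {α β : V → κ} (hα : IsCol G L α) (hβ : IsCol G L β) :
    Reach G L (159 * Fintype.card V) α β := by
  classical
  have tri : ∀ x y z, G.dist x z ≤ G.dist x y + G.dist y z := fun x y z => hconn.dist_triangle
  -- a maximal configuration
  let fam : Finset (Finset V) := Finset.univ.filter fun S => w ∈ S ∧ ∃ M γ, Cfg G L S M γ
  have hfam : fam.Nonempty := by
    refine ⟨{w}, ?_⟩
    simp only [fam, Finset.mem_filter, Finset.mem_univ, true_and]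
    refine ⟨by simp, ∅, α, ⟨?_, by simp, fun α hα => ⟨α, by simp, Reach.refl _ hα⟩⟩⟩
    intro s hs ψ hψ _
    rw [Finset.mem_singleton] at hs
    subst hs
    exact rich_free hψ hw
  obtain ⟨S, hS, hmax⟩ := Finset.exists_max_image fam Finset.card hfam
  simp only [fam, Finset.mem_filter, Finset.mem_univ, true_and] at hS hmax
  obtain ⟨hwS, M, γ, hC⟩ := hS
  have hdense : ∀ x, ∃ s ∈ S, G.dist x s ≤ 5 := by
    by_contra hcon
    push Not at hcon
    obtain ⟨x₀, hx₀⟩ := hcon
    let far : Finset (V × V) := Finset.univ.filter fun q =>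
      (∀ s ∈ S, 5 < G.dist q.1 s) ∧ q.2 ∈ S
    have hne : far.Nonempty := ⟨(x₀, w), by simp [far, hwS]; exact hx₀⟩
    obtain ⟨⟨x, s⟩, hxs, hmin⟩ := Finset.exists_min_image far (fun q => G.dist q.1 q.2) hne
    simp only [far, Finset.mem_filter, Finset.mem_univ, true_and, Prod.forall] at hxs hmin
    obtain ⟨hxfar, hsS⟩ := hxs
    have h6 : G.dist x s = 6 := by
      have h5 := hxfar s hsS
      by_contra h6
      obtain ⟨y, hxy, hys⟩ := exists_step hconn (x := x) (v := s) (k := G.dist x s - 1) (by omega)
      have hxy1 : G.dist x y = 1 := SimpleGraph.dist_eq_one_iff_adj.2 hxy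
      have hyfar : ∀ s' ∈ S, 5 < G.dist y s' := by
        intro s' hs'
        have h1 := hmin x s' ⟨hxfar, hs'⟩
        have h2 := tri x y s'
        omega
      have := hmin y s ⟨hyfar, hsS⟩
      omega
    rcases near_nonSimp hconn x with ⟨v, hxv, hv⟩ | hall
    · have hvx : G.dist v x ≤ 1 := by rw [SimpleGraph.dist_comm]; exact hxv
      obtain ⟨M', γ', hC'⟩ := hC.ext hconn hcard hd hv (by
        intro s' hs'
        have h1 := hxfar s' hs'
        have h2 := tri x v s'
        omega) ⟨s, hsS, by
          have h2 := tri v x s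
          omega⟩
      have hvS : v ∉ S := by
        intro hvS
        have h1 := hxfar v hvS
        omega
      have := hmax (insert v S) ⟨Finset.mem_insert_of_mem hwS, M', γ', hC'⟩
      rw [Finset.card_insert_of_notMem hvS] at this
      omega
    · have := hall s
      omega
  have hA : Anch G L M γ 5 := by
    intro v
    obtain ⟨s, hs, hvs⟩ := hdense v
    exact ⟨s, by rw [SimpleGraph.dist_comm]; exact hvs, hC.free s hs⟩
  have hcardS : (S.biUnion (ball G)).card ≤ Fintype.card V := Finset.card_le_univ _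
  obtain ⟨α', hα', hrα⟩ := hC.inst α hα
  obtain ⟨β', hβ', hrβ⟩ := hC.inst β hβ
  have htr := transfer hconn hcard hd hA hrβ.right_col hβ' (Fintype.card V) α' hrα.right_col hα'
    (Finset.card_le_univ _)
  refine ((hrα.trans htr).trans hrβ.symm).mono ?_
  omega

end RC
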