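import Mathlib

/-! MP_e02c34_co : linear diameter of list-recolouring graphs (helper4).  Basic definitions. -/

namespace RC

open Function

variable {V κ : Type*} [DecidableEq V]

/-- `φ` is an `L`-colouring of `G`. -/
def IsCol (G : SimpleGraph V) (L : V → Finset κ) (φ : V → κ) : Prop :=
  (∀ v, φ v ∈ L v) ∧ ∀ u v, G.Adj u v → φ u ≠ φ v

/-- `Reach G L n φ ψ`: one can go from the colouring `φ` to the colouring `ψ` by at most `n`
(possibly trivial) single-vertex recolourings through `L`-colourings. -/
inductive Reach (G : SimpleGraph V) (L : V → Finset κ) : ℕ → (V → κ) → (V → κ) → Prop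
  | refl (n : ℕ) {φ : V → κ} (h : IsCol G L φ) : Reach G L n φ φ
  | step {n : ℕ} {φ ψ : V → κ} (v : V) (x : κ) (h : Reach G L n φ ψ)
      (hc : IsCol G L (update ψ v x)) : Reach G L (n + 1) φ (update ψ v x)

/-- `v` is free in `φ`: it can be recoloured. -/
def Free (G : SimpleGraph V) (L : V → Finset κ) (φ : V → κ) (v : V) : Prop :=
  ∃ x ∈ L v, x ≠ φ v ∧ ∀ w, G.Adj v w → φ w ≠ x

/-- `w` is a neighbour of `v` whose colour is in the list of `v` and occurs at no other
neighbour of `v`. -/
def Uq (G : SimpleGraph V) (L : V → Finset κ) (φ : V → κ) (v w : V) : Prop :=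
  G.Adj v w ∧ φ w ∈ L v ∧ ∀ w', G.Adj v w' → φ w' = φ w → w' = w

/-- the colours of `u` and `v` exchanged -/
def sw (φ : V → κ) (u v : V) : V → κ := update (update φ u (φ v)) v (φ u)

/-- all the neighbours of `v` have distinct colours lying in the list of `v` -/
def Frz (G : SimpleGraph V) (L : V → Finset κ) (φ : V → κ) (v : V) : Prop :=
  ∀ w, G.Adj v w → Uq G L φ v w

/-- `p` is a private neighbour of `v` (with respect to the edge `uv`), free only through the
colour of `u`, and with an unusable colour of `v`. -/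
def T1 (G : SimpleGraph V) (L : V → Finset κ) (φ : V → κ) (u v p : V) : Prop :=
  G.Adj p v ∧ ¬ G.Adj p u ∧ p ≠ u ∧ φ u ∈ L p ∧ (∀ w, G.Adj p w → φ w ≠ φ u) ∧
  (∀ x ∈ L p, x ≠ φ p → x ≠ φ u → ∃ w, G.Adj p w ∧ w ≠ v ∧ φ w = x) ∧
  ∀ w, G.Adj p w → w ≠ v → φ w ∈ L p ∧ ∀ w', G.Adj p w' → w' ≠ v → φ w' = φ w → w' = w

section
variable {G : SimpleGraph V} {L : V → Finset κ}

theorem IsCol.upd {φ : V → κ} (h : IsCol G L φ) {v : V} {x : κ} (hx : x ∈ L v)
    (hn : ∀ w, G.Adj v w → φ w ≠ x) : IsCol G L (update φ v x) := by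
  refine ⟨fun w => ?_, fun a b hab => ?_⟩
  · by_cases hw : w = v
    · subst hw; simpa using hx
    · simpa [hw] using h.1 w
  · by_cases ha : a = v
    · subst ha
      have hb : b ≠ a := fun e => G.loopless.irrefl _ (e ▸ hab)
      rw [update_self, update_of_ne hb]
      exact (hn b hab).symm
    · by_cases hb : b = v
      · subst hb
        rw [update_self, update_of_ne ha]
        exact hn a hab.symm
      · rw [update_of_ne ha, update_of_ne hb]; exact h.2 a b hab

theorem Reach.left_col {n : ℕ} {φ ψ : V → κ} (h : Reach G L n φ ψ) : IsCol G L φ := by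
  induction h with
  | refl n h => exact h
  | step v x h hc ih => exact ih

theorem Reach.right_col {n : ℕ} {φ ψ : V → κ} (h : Reach G L n φ ψ) : IsCol G L ψ := by
  cases h with
  | refl n h => exact h
  | step v x h hc => exact hc

theorem Reach.mono {m n : ℕ} {φ ψ : V → κ} (h : Reach G L m φ ψ) (hmn : m ≤ n) :
    Reach G L n φ ψ := by
  induction h generalizing n with
  | refl m h => exact Reach.refl n h
  | step v x h hc ih =>
    obtain ⟨k, rfl⟩ : ∃ k, n = k + 1 := ⟨n - 1, by omega⟩
    exact Reach.step v x (ih (by omega)) hc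

theorem Reach.trans {m n : ℕ} {φ ψ χ : V → κ} (h1 : Reach G L m φ ψ) (h2 : Reach G L n ψ χ) :
    Reach G L (m + n) φ χ := by
  induction h2 with
  | refl n h => exact h1.mono (by omega)
  | step v x h hc ih => exact Reach.step v x (ih h1) hc

theorem Reach.mv {n : ℕ} {φ ψ : V → κ} (h : Reach G L n φ ψ) (v : V) (x : κ) (hx : x ∈ L v)
    (hn : ∀ w, G.Adj v w → ψ w ≠ x) : Reach G L (n + 1) φ (update ψ v x) :=
  Reach.step v x h (h.right_col.upd hx hn)

theorem Reach.symm {n : ℕ} {φ ψ : V → κ} (h : Reach G L n φ ψ) : Reach G L n ψ φ := by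
  induction h with
  | refl n h => exact Reach.refl n h
  | @step n φ ψ v x h hc ih =>
    have h1 : Reach G L 1 (update ψ v x) ψ := by
      have h2 := Reach.step (n := 0) v (ψ v) (Reach.refl 0 hc) (by
        rw [update_idem, update_eq_self]; exact h.right_col)
      rwa [update_idem, update_eq_self] at h2
    have := h1.trans ih
    rwa [add_comm] at this

theorem sw_comm (φ : V → κ) (u v : V) : sw φ u v = sw φ v u := by
  funext w
  simp only [sw]
  grind [Function.update_apply]

theorem sw_sw (φ : V → κ) (u v : V) : sw (sw φ u v) u v = φ := by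
  funext w
  simp only [sw]
  grind [Function.update_apply]

theorem sw_apply (φ : V → κ) (u v w : V) :
    sw φ u v w = if w = v then φ u else if w = u then φ v else φ w := by
  simp only [sw]
  grind [Function.update_apply]

end

end RC
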