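import Pool.Agent.helper4.RC.Local

/-! MP_e02c34_co : counting facts about frozen vertices (helper4). -/

namespace RC

open Function

set_option linter.unusedVariables false

variable {V κ : Type*} [DecidableEq V] {G : SimpleGraph V} {L : V → Finset κ}

theorem inj_of_cover [DecidableEq κ] (N : Finset V) (S : Finset κ) (φ : V → κ)
    (hcov : ∀ x ∈ S, ∃ w ∈ N, φ w = x) (hcard : N.card ≤ S.card) :
    (∀ w ∈ N, φ w ∈ S) ∧ ∀ w ∈ N, ∀ w' ∈ N, φ w = φ w' → w = w' := by
  have hsub : S ⊆ N.image φ := by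
    intro x hx
    obtain ⟨w, hw, rfl⟩ := hcov x hx
    exact Finset.mem_image_of_mem _ hw
  have hle : (N.image φ).card ≤ N.card := Finset.card_image_le
  have heq : S = N.image φ := Finset.eq_of_subset_of_card_le hsub (hle.trans hcard)
  refine ⟨fun w hw => heq ▸ Finset.mem_image_of_mem _ hw, ?_⟩
  have hc : (N.image φ).card = N.card := by
    apply le_antisymm hle
    rw [← heq]; exact hcard
  have := Finset.card_image_iff.1 hc
  intro w hw w' hw' h
  exact this (by simpa using hw) (by simpa using hw') h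

variable [Fintype V] [DecidableRel G.Adj]

theorem frz_of_not_free {φ : V → κ} (h : IsCol G L φ) {v : V}
    (hd : G.degree v + 1 ≤ (L v).card) (hf : ¬ Free G L φ v) : Frz G L φ v := by
  classical
  have key := inj_of_cover (G.neighborFinset v) ((L v).erase (φ v)) φ (by
    intro x hx
    rw [Finset.mem_erase] at hx
    by_contra hcon
    push Not at hcon
    exact hf ⟨x, hx.2, hx.1, fun w hw => hcon w (by simpa using hw)⟩) (by
    rw [Finset.card_erase_of_mem (h.1 v)]
    simp only [SimpleGraph.card_neighborFinset_eq_degree]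
    omega)
  intro w hw
  refine ⟨hw, ?_, ?_⟩
  · have := key.1 w (by simpa using hw)
    exact (Finset.mem_erase.1 this).2
  · intro w' hw' he
    exact key.2 w' (by simpa using hw') w (by simpa using hw) he

/-- a free neighbour of `v` gives the swap or is troublesome -/
theorem side {φ : V → κ} (h : IsCol G L φ) {u v p : V} (Uuv : Uq G L φ u v)
    (Uvu : Uq G L φ v u) (Uvp : Uq G L φ v p) (hpu : p ≠ u)
    (hd : G.degree p + 1 ≤ (L p).card) (hf : Free G L φ p) :
    Reach G L 6 φ (sw φ u v) ∨ T1 G L φ u v p := by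
  classical
  by_cases h1 : ∃ b ∈ L p, b ≠ φ p ∧ (∀ w, G.Adj p w → φ w ≠ b) ∧ b ≠ φ u
  · obtain ⟨b, hb, hbp, hb2, hbc⟩ := h1
    exact Or.inl ((LL1 h Uuv Uvu Uvp hpu hb hbp hb2 hbc).mono (by norm_num))
  push Not at h1
  obtain ⟨b, hb, hbp, hb2⟩ := hf
  have hbu : b = φ u := h1 b hb hbp hb2
  subst hbu
  by_cases h2 : Uq G L φ p v
  · exact Or.inl (LL2 h Uuv Uvu Uvp hb hb2 hpu h2)
  right
  have hpv : G.Adj p v := Uvp.1.symm
  have hcov : ∀ x ∈ L p, x ≠ φ p → x ≠ φ u → ∃ w, G.Adj p w ∧ w ≠ v ∧ φ w = x := by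
    intro x hx hxp hxu
    by_contra hcon
    push Not at hcon
    apply hxu
    apply h1 x hx hxp
    intro w hw hwx
    by_cases hwv : w = v
    · subst hwv
      apply h2
      refine ⟨hw, hwx ▸ hx, fun w' hw' he => ?_⟩
      by_contra hne
      exact hcon w' hw' hne (he.trans hwx)
    · exact hcon w hw hwv hwx
  have key := inj_of_cover ((G.neighborFinset p).erase v) (((L p).erase (φ p)).erase (φ u)) φ (by
    intro x hx
    simp only [Finset.mem_erase] at hx
    obtain ⟨w, hw, hwv, hwx⟩ := hcov x hx.2.2 hx.2.1 hx.1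
    exact ⟨w, by simp [hw, hwv], hwx⟩) (by
    have hmem : φ u ∈ (L p).erase (φ p) := Finset.mem_erase.2 ⟨hbp, hb⟩
    rw [Finset.card_erase_of_mem hmem, Finset.card_erase_of_mem (h.1 p),
      Finset.card_erase_of_mem (by simpa using hpv)]
    simp only [SimpleGraph.card_neighborFinset_eq_degree]
    omega)
  refine ⟨hpv, fun hpu' => hb2 u hpu' rfl, hpu, hb, hb2, hcov, fun w hw hwv => ⟨?_, ?_⟩⟩
  · have := key.1 w (by simp [hw, hwv])
    simp only [Finset.mem_erase] at this
    exact this.2.2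
  · intro w' hw' hwv' he
    exact key.2 w' (by simp [hw', hwv']) w (by simp [hw, hwv]) he

/-- after the swap a troublesome vertex is not free -/
theorem T1.not_free {φ : V → κ} (h : IsCol G L φ) {u v p : V} (ht : T1 G L φ u v p)
    (huv : u ≠ v) : ¬ Free G L (sw φ u v) p := by
  obtain ⟨t1, t2, t3, t4, t5, t6, t7⟩ := ht
  rintro ⟨x, hx, hxp, hxw⟩
  have hpv : p ≠ v := G.ne_of_adj t1
  by_cases hxu : x = φ u
  · exact hxw v t1 (by rw [sw_apply]; simp [hxu])
  · have hxp' : x ≠ φ p := by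
      rw [sw_apply] at hxp
      simpa [hpv, t3] using hxp
    obtain ⟨w, hw, hwv, hwx⟩ := t6 x hx hxp' hxu
    apply hxw w hw
    rw [sw_apply]
    have hwu : w ≠ u := fun e => t2 (e ▸ hw)
    simp [hwv, hwu, hwx]

/-- a vertex adjacent to both `u` and `v` keeps its state in the swap -/
theorem not_free_sw_both {φ : V → κ} {u v z : V} (hu : G.Adj z u) (hv : G.Adj z v)
    (huv : u ≠ v) (hf : ¬ Free G L φ z) : ¬ Free G L (sw φ u v) z := by
  rintro ⟨x, hx, hxp, hxw⟩
  apply hf
  have hzu : z ≠ u := G.ne_of_adj hu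
  have hzv : z ≠ v := G.ne_of_adj hv
  refine ⟨x, hx, by rw [sw_apply] at hxp; simpa [hzu, hzv] using hxp, fun w hw => ?_⟩
  have h1 := hxw w hw
  have h2 := hxw u hu
  have h3 := hxw v hv
  rw [sw_apply] at h1 h2 h3
  grind

/-- the ends of the edge keep their state in the swap -/
theorem not_free_sw_left {φ : V → κ} (h : IsCol G L φ) {u v : V} (huv : G.Adj u v)
    (hvu : φ v ∈ L u) (hf : ¬ Free G L φ u) : ¬ Free G L (sw φ u v) u := by
  rintro ⟨x, hx, hxp, hxw⟩
  apply hf
  have hne : u ≠ v := G.ne_of_adj huv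
  have h3 := hxw v huv
  rw [sw_apply] at h3 hxp
  simp only [if_true] at h3
  simp only [hne, if_false, if_true] at hxp
  refine ⟨x, hx, fun e => h3 e.symm, fun w hw => ?_⟩
  have h1 := hxw w hw
  have hwu : w ≠ u := (G.ne_of_adj hw).symm
  rw [sw_apply] at h1
  grind

theorem not_free_sw_right {φ : V → κ} (h : IsCol G L φ) {u v : V} (huv : G.Adj u v)
    (hvu : φ u ∈ L v) (hf : ¬ Free G L φ v) : ¬ Free G L (sw φ u v) v := by
  rw [sw_comm]
  exact not_free_sw_left h huv.symm hvu hf

theorem isCol_sw {φ : V → κ} (h : IsCol G L φ) {u v : V} (Uuv : Uq G L φ u v)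
    (Uvu : Uq G L φ v u) : IsCol G L (sw φ u v) := by
  obtain ⟨hL, hA⟩ := h
  have hs := G.loopless.irrefl
  have hsym : ∀ a b, G.Adj a b → G.Adj b a := fun a b h => h.symm
  simp only [Uq] at *
  constructor
  · intro w
    rw [sw_apply]; grind
  · intro a b hab
    rw [sw_apply, sw_apply]; grind

end RC
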