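import Pool.Agent.helper4.RC.Frozen

/-! MP_e02c34_co : swapping when some neighbour is free (helper4). -/

namespace RC

open Function

set_option linter.unusedVariables false
set_option linter.unusedSectionVars false

variable {V κ : Type*} [DecidableEq V] {G : SimpleGraph V} {L : V → Finset κ}
variable [Fintype V] [DecidableRel G.Adj]

theorem T1.uq {φ : V → κ} {u v p w : V} (ht : T1 G L φ u v p) (hw : G.Adj p w)
    (hne : φ w ≠ φ v) : Uq G L φ p w := by
  obtain ⟨t1, t2, t3, t4, t5, t6, t7⟩ := ht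
  have hwv : w ≠ v := fun e => hne (by rw [e])
  refine ⟨hw, (t7 w hw hwv).1, fun w' hw' he => ?_⟩
  have hwv' : w' ≠ v := fun e => hne (by rw [← he, e])
  exact (t7 w hw hwv).2 w' hw' hwv' he

/-- a troublesome `p` at `v` and a frozen private neighbour `P` of `u` with another colour -/
theorem pair56 {φ : V → κ} (h : IsCol G L φ) {u v p P : V} (Uuv : Uq G L φ u v)
    (Uvu : Uq G L φ v u) (Uvp : Uq G L φ v p) (ht : T1 G L φ u v p)
    (UuP : Uq G L φ u P) (hPv : P ≠ v) (hPv' : ¬ G.Adj P v) (hP : Frz G L φ P)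
    (hne : φ P ≠ φ p) : Reach G L 12 φ (sw φ u v) := by
  have ht' := ht
  obtain ⟨t1, t2, t3, t4, t5, t6, t7⟩ := ht'
  have hPgv : φ P ≠ φ v := fun e => hPv (Uuv.2.2 P UuP.1 e)
  by_cases hadj : G.Adj P p
  · exact LL6 h Uuv Uvu Uvp t4 t5 t3 UuP hPv hPv' (hP u UuP.1.symm)
      (ht.uq hadj.symm hPgv) (hP p hadj)
  · exact (LL5 h Uuv Uvu Uvp t4 t5 t3 UuP hPv hPv' (hP u UuP.1.symm) hadj hne).mono
      (by norm_num)

theorem exists_third {v a b : V} (hd : 3 ≤ G.degree v) : ∃ z, G.Adj v z ∧ z ≠ a ∧ z ≠ b := by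
  classical
  by_contra hcon
  push Not at hcon
  have hsub : G.neighborFinset v ⊆ {a, b} := by
    intro z hz
    rw [SimpleGraph.mem_neighborFinset] at hz
    by_cases hza : z = a
    · simp [hza]
    · simp [hcon z hz hza]
  have := Finset.card_le_card hsub
  have h2 : ({a, b} : Finset V).card ≤ 2 := Finset.card_le_two
  rw [SimpleGraph.card_neighborFinset_eq_degree] at this
  omega

theorem K1_vu {φ : V → κ} (h : IsCol G L φ) (hcard : ∀ x, G.degree x + 1 ≤ (L x).card)
    {u v p P : V} (hd : 3 ≤ G.degree v)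
    (hu : ¬ Free G L φ u) (hv : ¬ Free G L φ v) (huv : G.Adj u v)
    (ht : T1 G L φ u v p)
    (hPu : G.Adj u P) (hPv : P ≠ v) (hPv' : ¬ G.Adj P v) (hP : ¬ Free G L φ P) :
    Reach G L 13 φ (sw φ u v) := by
  have Fu := frz_of_not_free h (hcard u) hu
  have Fv := frz_of_not_free h (hcard v) hv
  have FP := frz_of_not_free h (hcard P) hP
  have Uuv := Fu v huv
  have Uvu := Fv u huv.symm
  have UuP := Fu P hPu
  have ht' := ht
  obtain ⟨t1, t2, t3, t4, t5, t6, t7⟩ := ht'
  have Uvp := Fv p t1.symm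
  by_cases hq : φ P = φ p
  · have hPp : ¬ G.Adj P p := fun e => h.2 _ _ e hq
    obtain ⟨z, hz, hzu, hzp⟩ := exists_third (a := u) (b := p) hd
    have Uvz := Fv z hz
    by_cases hzu' : G.Adj z u
    · by_cases hzf : Free G L φ z
      · rcases side h Uuv Uvu Uvz hzu (hcard z) hzf with h1 | h1
        · exact h1.mono (by norm_num)
        · exact absurd hzu' h1.2.1
      have Fz := frz_of_not_free h (hcard z) hzf
      by_cases hzp' : G.Adj z p
      · have hzP : ¬ G.Adj z P := by
          intro e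
          have := (Fz p hzp').2.2 P e hq
          exact hPv' (this ▸ t1)
        exact (V2 h Uuv Uvu Uvp t4 t5 t3 UuP hPv hPv' (FP u hPu.symm) hq (Fu z hzu'.symm) Uvz
          (Fz u hzu') (Fz v hz.symm) (ht.uq hzp'.symm (fun e => h.2 _ _ hz e.symm)) hzP).mono
          (by norm_num)
      by_cases hzP : G.Adj z P
      · -- reversed V2
        have hne : u ≠ v := G.ne_of_adj huv
        have h' : IsCol G L (sw φ u v) := isCol_sw h Uuv Uvu
        have cu := hcard u
        have Fu' := frz_of_not_free h' (hcard u) (not_free_sw_left h huv Uuv.2.1 hu)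
        have Fv' := frz_of_not_free h' (hcard v) (not_free_sw_right h huv Uvu.2.1 hv)
        have Fz' := frz_of_not_free h' (hcard z) (not_free_sw_both hzu' hz.symm hne hzf)
        have Fp' := frz_of_not_free h' (hcard p) (ht.not_free h hne)
        have ep : sw φ u v p = φ p := by
          rw [sw_apply, if_neg (G.ne_of_adj t1), if_neg t3]
        have eP : sw φ u v P = φ P := by
          rw [sw_apply, if_neg hPv, if_neg (G.ne_of_adj hPu).symm]
        have ev : sw φ u v v = φ u := by rw [sw_apply, if_pos rfl]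
        have eu : sw φ u v u = φ v := by rw [sw_apply, if_neg hne, if_pos rfl]
        have key := V2 (u := v) (v := u) (p := P) (P := p) (z := z) h' (Fv' u huv.symm) (Fu' v huv)
          (Fu' P hPu) (by rw [ev]; exact (FP u hPu.symm).2.1) (by
            intro w hw
            rw [ev, sw_apply]
            have hwv : w ≠ v := fun e => hPv' (e ▸ hw)
            by_cases hwu : w = u
            · rw [if_neg hwv, if_pos hwu]; exact fun e => h.2 _ _ huv e.symm
            · rw [if_neg hwv, if_neg hwu]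
              exact fun e => hwu ((FP u hPu.symm).2.2 w hw e)) hPv (Fv' p t1.symm) t3
          t2 (Fp' v t1) (by rw [ep, eP, hq]) (Fv' z hz) (Fu' z hzu'.symm) (Fz' v hz.symm)
          (Fz' u hzu') (by
            refine ⟨hzP.symm, ?_, ?_⟩
            · rw [sw_apply, if_neg (G.ne_of_adj hz).symm, if_neg hzu]
              exact (FP z hzP.symm).2.1
            · intro w' hw' he
              have e1 : sw φ u v z = φ z := by
                rw [sw_apply, if_neg (G.ne_of_adj hz).symm, if_neg hzu]
              rw [e1, sw_apply] at he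
              have hwv : w' ≠ v := fun e => hPv' (e ▸ hw')
              rw [if_neg hwv] at he
              by_cases hwu : w' = u
              · rw [if_pos hwu] at he
                exact absurd he (h.2 _ _ hz)
              · rw [if_neg hwu] at he
                exact (FP z hzP.symm).2.2 w' hw' he) hzp'
        have e2 : sw (sw φ u v) v u = φ := by rw [sw_comm _ v u, sw_sw]
        rw [e2] at key
        exact key.symm.mono (by norm_num)
      exact V1 h Uuv Uvu Uvp t4 t5 t3 UuP hPv hPv' (FP u hPu.symm) hq (Fu z hzu'.symm) Uvz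
        (Fz u hzu') (Fz v hz.symm) hzp' hzP
    · by_cases hzf : Free G L φ z
      · rcases side h Uuv Uvu Uvz hzu (hcard z) hzf with h1 | h1
        · exact h1.mono (by norm_num)
        · have hne : φ P ≠ φ z := by
            rw [hq]
            intro e
            exact hzp (Uvp.2.2 z hz e.symm)
          exact (pair56 h Uuv Uvu Uvz h1 UuP hPv hPv' FP hne).mono (by norm_num)
      · have Fz := frz_of_not_free h (hcard z) hzf
        exact (LL4 h Uuv Uvu Uvp t4 t5 t3 Uvz hzu hzp hzu' (Fz v hz.symm)).mono (by norm_num)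
  · exact (pair56 h Uuv Uvu Uvp ht UuP hPv hPv' FP hq).mono (by norm_num)

/-- one side of the main case distinction: a free neighbour of `v` -/
theorem K1_side {φ : V → κ} (h : IsCol G L φ) (hcard : ∀ x, G.degree x + 1 ≤ (L x).card)
    {u v p : V} (hd : 3 ≤ G.degree v)
    (hu : ¬ Free G L φ u) (hv : ¬ Free G L φ v) (huv : G.Adj u v)
    (hp : G.Adj v p) (hpu : p ≠ u) (hpf : Free G L φ p) :
    Reach G L 13 φ (sw φ u v) ∨
      ((∀ z, G.Adj v z → z ≠ u → ¬ G.Adj z u → T1 G L φ u v z) ∧
       (∀ z, G.Adj v z → G.Adj z u → ¬ Free G L φ z) ∧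
       (∀ P, G.Adj u P → P ≠ v → ¬ G.Adj P v → Free G L φ P)) := by
  have Fu := frz_of_not_free h (hcard u) hu
  have Fv := frz_of_not_free h (hcard v) hv
  have Uuv := Fu v huv
  have Uvu := Fv u huv.symm
  by_cases hR : Reach G L 13 φ (sw φ u v)
  · exact Or.inl hR
  right
  have hside : ∀ z, G.Adj v z → z ≠ u → Free G L φ z → T1 G L φ u v z := by
    intro z hz hzu hzf
    rcases side h Uuv Uvu (Fv z hz) hzu (hcard z) hzf with h1 | h1
    · exact absurd (h1.mono (by norm_num)) hR
    · exact h1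
  have ht := hside p hp hpu hpf
  have ht' := ht
  obtain ⟨t1, t2, t3, t4, t5, t6, t7⟩ := ht'
  refine ⟨fun z hz hzu hzu' => ?_, fun z hz hzu' hzf => ?_, fun P hP hPv hPv' => ?_⟩
  · by_cases hzf : Free G L φ z
    · exact hside z hz hzu hzf
    · exfalso
      apply hR
      have Fz := frz_of_not_free h (hcard z) hzf
      have hzp : z ≠ p := fun e => hzf (e ▸ hpf)
      exact (LL4 h Uuv Uvu (Fv p hp) t4 t5 t3 (Fv z hz) hzu hzp hzu' (Fz v hz.symm)).mono
        (by norm_num)
  · exact (hside z hz (G.ne_of_adj hzu') hzf).2.1 hzu'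
  · by_contra hPf
    exact hR (K1_vu h hcard hd hu hv huv ht hP hPv hPv' hPf)

/-- The swap, when some neighbour of `u` or `v` is free: either it can be done, or all the
neighbours of `u` and of `v` are frozen after the swap. -/
theorem K1 {φ : V → κ} (h : IsCol G L φ) (hcard : ∀ x, G.degree x + 1 ≤ (L x).card)
    {u v : V} (hdu : 3 ≤ G.degree u) (hdv : 3 ≤ G.degree v)
    (hu : ¬ Free G L φ u) (hv : ¬ Free G L φ v) (huv : G.Adj u v) {p : V}
    (hp : G.Adj v p ∨ G.Adj u p) (hpf : Free G L φ p) :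
    Reach G L 13 φ (sw φ u v) ∨
      (∀ z, G.Adj v z ∨ G.Adj u z → ¬ Free G L (sw φ u v) z) := by
  have hne : u ≠ v := G.ne_of_adj huv
  have Fu := frz_of_not_free h (hcard u) hu
  have Fv := frz_of_not_free h (hcard v) hv
  by_cases hR : Reach G L 13 φ (sw φ u v)
  · exact Or.inl hR
  right
  have hR' : ¬ Reach G L 13 φ (sw φ v u) := by rwa [sw_comm]
  have hend_u : ¬ Free G L (sw φ u v) u := not_free_sw_left h huv (Fu v huv).2.1 hu
  have hend_v : ¬ Free G L (sw φ u v) v := not_free_sw_right h huv (Fv u huv.symm).2.1 hv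
  -- the conclusion from the information on both sides
  have fin : (∀ z, G.Adj v z → z ≠ u → ¬ G.Adj z u → T1 G L φ u v z) →
      (∀ z, G.Adj u z → z ≠ v → ¬ G.Adj z v → T1 G L φ v u z) →
      (∀ z, G.Adj v z → G.Adj z u → ¬ Free G L φ z) →
      (∀ z, G.Adj v z ∨ G.Adj u z → ¬ Free G L (sw φ u v) z) := by
    intro h1 h2 h3 z hz
    by_cases hzu : z = u
    · subst hzu; exact hend_u
    by_cases hzv : z = v
    · subst hzv; exact hend_v
    by_cases a1 : G.Adj v z
    · by_cases a2 : G.Adj z u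
      · exact not_free_sw_both a2 a1.symm hne (h3 z a1 a2)
      · exact (h1 z a1 hzu a2).not_free h hne
    · have a3 : G.Adj u z := by tauto
      have := (h2 z a3 hzv (fun e => a1 e.symm)).not_free h hne.symm
      rwa [sw_comm] at this
  -- main
  have hpu : p ≠ u := fun e => hu (e ▸ hpf)
  have hpv : p ≠ v := fun e => hv (e ▸ hpf)
  rcases hp with hp | hp
  · rcases K1_side h hcard hdv hu hv huv hp hpu hpf with h1 | ⟨h1, h2, h3⟩
    · exact absurd h1 hR
    by_cases hex : ∃ P, G.Adj u P ∧ P ≠ v ∧ ¬ G.Adj P v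
    · obtain ⟨P, hP, hPv, hPv'⟩ := hex
      rcases K1_side h hcard hdu hv hu huv.symm hP hPv (h3 P hP hPv hPv') with g1 | ⟨g1, g2, g3⟩
      · exact absurd g1 hR'
      exact fin h1 g1 h2
    · push Not at hex
      exact fin h1 (fun z hz hzv hzv' => absurd (hex z hz hzv) hzv') h2
  · rcases K1_side h hcard hdu hv hu huv.symm hp hpv hpf with h1 | ⟨h1, h2, h3⟩
    · exact absurd h1 hR'
    have h2' : ∀ z, G.Adj v z → G.Adj z u → ¬ Free G L φ z :=
      fun z a b => h2 z b.symm a.symm
    by_cases hex : ∃ P, G.Adj v P ∧ P ≠ u ∧ ¬ G.Adj P u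
    · obtain ⟨P, hP, hPv, hPv'⟩ := hex
      rcases K1_side h hcard hdv hu hv huv hP hPv (h3 P hP hPv hPv') with g1 | ⟨g1, g2, g3⟩
      · exact absurd g1 hR
      exact fin g1 h1 h2'
    · push Not at hex
      exact fin (fun z hz hzv hzv' => absurd (hex z hz hzv) hzv') h1 h2'

end RC
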