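import Pool.Agent.helper4.RC.K1

/-! MP_e02c34_co : swapping when all the neighbours are frozen; the Swap Lemma (helper4). -/

namespace RC

open Function

set_option linter.unusedVariables false
set_option linter.unusedSectionVars false

variable {V κ : Type*} [DecidableEq V] {G : SimpleGraph V} {L : V → Finset κ}
variable [Fintype V] [DecidableRel G.Adj]

theorem Uq.upd {φ : V → κ} {x w y : V} {b : κ} (h : Uq G L φ x w) (hxy : ¬ G.Adj x y) :
    Uq G L (update φ y b) x w := by
  obtain ⟨h1, h2, h3⟩ := h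
  have hw : ∀ w', G.Adj x w' → update φ y b w' = φ w' := fun w' hw' => by
    rw [update_of_ne]; rintro rfl; exact hxy hw'
  refine ⟨h1, by rw [hw w h1]; exact h2, fun w' hw' he => ?_⟩
  rw [hw w h1, hw w' hw'] at he
  exact h3 w' hw' he

theorem not_free_upd {φ : V → κ} {x y : V} {b : κ} (h : ¬ Free G L φ x) (hxy : ¬ G.Adj x y)
    (hne : x ≠ y) : ¬ Free G L (update φ y b) x := by
  rintro ⟨c, hc, hcx, hcw⟩
  apply h
  rw [update_of_ne hne] at hcx
  refine ⟨c, hc, hcx, fun w hw => ?_⟩
  have := hcw w hw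
  rwa [update_of_ne (by rintro rfl; exact hxy hw)] at this

theorem conj {φ : V → κ} (h : IsCol G L φ) {u v y : V} {b : κ} (Uuv : Uq G L φ u v)
    (Uvu : Uq G L φ v u) (hyu : y ≠ u) (hyv : y ≠ v) (ayu : ¬ G.Adj y u) (ayv : ¬ G.Adj y v)
    (hb : b ∈ L y) (hb2 : ∀ w, G.Adj y w → φ w ≠ b) {n : ℕ}
    (hr : Reach G L n (update φ y b) (sw (update φ y b) u v)) :
    Reach G L (n + 2) φ (sw φ u v) := by
  have h1 : Reach G L 1 φ (update φ y b) := (Reach.refl 0 h).mv y b hb hb2
  have h2 : IsCol G L (sw φ u v) := isCol_sw h Uuv Uvu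
  have h3 : Reach G L 1 (sw φ u v) (update (sw φ u v) y b) :=
    (Reach.refl 0 h2).mv y b hb (by
      intro w hw
      rw [sw_apply, if_neg (by rintro rfl; exact ayv hw), if_neg (by rintro rfl; exact ayu hw)]
      exact hb2 w hw)
  have h4 : sw (update φ y b) u v = update (sw φ u v) y b := by
    funext w
    by_cases hw : w = y
    · subst hw
      rw [sw_apply, if_neg hyv, if_neg hyu, update_self, update_self]
    · rw [update_of_ne hw, sw_apply, sw_apply, update_of_ne hw, update_of_ne (Ne.symm hyu),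
        update_of_ne (Ne.symm hyv)]
  rw [h4] at hr
  exact ((h1.trans hr).trans h3.symm).mono (by omega)

/-- if `y` takes the colour of `v`, a frozen private neighbour of `v` adjacent to `y` becomes
troublesome -/
theorem T1_of {φ : V → κ} (h : IsCol G L φ) {u v p y : V} (Fp : Frz G L φ p)
    (hp : ¬ Free G L φ p) (hpv : G.Adj p v) (hpu' : p ≠ u) (hpy : G.Adj p y)
    (hyu : y ≠ u) (hyv : y ≠ v) (hyc : φ y = φ u) (huv : G.Adj u v) :
    T1 G L (update φ y (φ v)) u v p := by
  have hpu : ¬ G.Adj p u := by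
    intro e
    exact hyu ((Fp y hpy).2.2 u e hyc.symm).symm
  have eu : update φ y (φ v) u = φ u := update_of_ne (Ne.symm hyu) _ _
  have ep : update φ y (φ v) p = φ p := update_of_ne (G.ne_of_adj hpy) _ _
  refine ⟨hpv, hpu, hpu', ?_, ?_, ?_, ?_⟩
  · rw [eu, ← hyc]; exact (Fp y hpy).2.1
  · intro w hw
    rw [eu]
    by_cases hwy : w = y
    · subst hwy
      rw [update_self]
      exact fun e => h.2 _ _ huv e.symm
    · rw [update_of_ne hwy]
      intro e
      exact hwy ((Fp y hpy).2.2 w hw (e.trans hyc.symm))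
  · intro x hx hxp hxu
    rw [ep] at hxp
    rw [eu] at hxu
    have : ∃ w, G.Adj p w ∧ φ w = x := by
      by_contra hcon
      push Not at hcon
      exact hp ⟨x, hx, hxp, fun w hw => hcon w hw⟩
    obtain ⟨w, hw, hwx⟩ := this
    by_cases hwv : w = v
    · subst hwv
      exact ⟨y, hpy, hyv, by rw [update_self]; exact hwx⟩
    · refine ⟨w, hw, hwv, ?_⟩
      rw [update_of_ne]
      · exact hwx
      · rintro rfl
        exact hxu (hwx.symm.trans hyc)
  · intro w hw hwv
    by_cases hwy : w = y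
    · subst hwy
      refine ⟨by rw [update_self]; exact (Fp v hpv).2.1, fun w' hw' hwv' he => ?_⟩
      by_contra hne
      rw [update_self, update_of_ne hne] at he
      exact hwv' ((Fp v hpv).2.2 w' hw' he)
    · refine ⟨by rw [update_of_ne hwy]; exact (Fp w hw).2.1, fun w' hw' hwv' he => ?_⟩
      rw [update_of_ne hwy] at he
      by_cases hwy' : w' = y
      · subst hwy'
        rw [update_self] at he
        exact absurd ((Fp v hpv).2.2 w hw he.symm) hwv
      · rw [update_of_ne hwy'] at he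
        exact (Fp w hw).2.2 w' hw' he

theorem K2 {φ : V → κ} (h : IsCol G L φ) (hcard : ∀ x, G.degree x + 1 ≤ (L x).card)
    {u v p y : V} (hdu : 3 ≤ G.degree u) (hdv : 3 ≤ G.degree v)
    (hu : ¬ Free G L φ u) (hv : ¬ Free G L φ v) (huv : G.Adj u v)
    (hall : ∀ z, G.Adj v z ∨ G.Adj u z → ¬ Free G L φ z)
    (hyf : Free G L φ y) (hyp : G.Adj y p) (hpv : G.Adj p v) :
    Reach G L 14 φ (sw φ u v) := by
  have F : ∀ x, ¬ Free G L φ x → Frz G L φ x := fun x hx => frz_of_not_free h (hcard x) hx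
  have Uuv := F u hu v huv
  have Uvu := F v hv u huv.symm
  have hpf : ¬ Free G L φ p := hall p (Or.inl hpv.symm)
  have Fp := F p hpf
  have hyu : y ≠ u := fun e => hu (e ▸ hyf)
  have hyv : y ≠ v := fun e => hv (e ▸ hyf)
  have ayu : ¬ G.Adj y u := fun e => hall y (Or.inr e.symm) hyf
  have ayv : ¬ G.Adj y v := fun e => hall y (Or.inl e.symm) hyf
  have hpu' : p ≠ u := fun e => ayu (e ▸ hyp)
  have Uvp := F v hv p hpv.symm
  have Upy := Fp y hyp.symm
  have Upv := Fp v hpv
  have hyf' := hyf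
  obtain ⟨b, hb, hby, hb2⟩ := hyf'
  have ayu' : ¬ G.Adj u y := fun e => ayu e.symm
  have ayv' : ¬ G.Adj v y := fun e => ayv e.symm
  -- the colouring after moving `y`
  have hcol : ∀ b ∈ L y, (∀ w, G.Adj y w → φ w ≠ b) → IsCol G L (update φ y b) :=
    fun b hb hb2 => h.upd hb hb2
  have e1 : ∀ (b : κ) w, w ≠ y → update φ y b w = φ w := fun b w hw => update_of_ne hw _ _
  have npy : p ≠ y := (G.ne_of_adj hyp).symm
  by_cases hc : φ y = φ u
  swap
  · -- case 1
    refine (conj h Uuv Uvu hyu hyv ayu ayv hb hb2 (n := 5) ?_).mono (by norm_num)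
    refine LL1 (hcol b hb hb2) (Uuv.upd ayu') (Uvu.upd ayv') (Uvp.upd ayv') hpu'
      (b := φ y) Upy.2.1 ?_ ?_ ?_
    · rw [e1 _ _ npy]; exact h.2 _ _ hyp
    · intro w hw
      by_cases hwy : w = y
      · subst hwy; rw [update_self]; exact hby
      · rw [e1 _ _ hwy]; exact fun e => hwy (Upy.2.2 w hw e)
    · rw [e1 _ _ (Ne.symm hyu)]; exact hc
  by_cases hex : ∃ b ∈ L y, b ≠ φ y ∧ (∀ w, G.Adj y w → φ w ≠ b) ∧ b ≠ φ v
  · -- case 2
    obtain ⟨b, hb, hby, hb2, hbv⟩ := hex
    refine (conj h Uuv Uvu hyu hyv ayu ayv hb hb2 (n := 6) ?_).mono (by norm_num)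
    refine LL2 (hcol b hb hb2) (Uuv.upd ayu') (Uvu.upd ayv') (Uvp.upd ayv') ?_ ?_ hpu' ?_
    · rw [e1 _ _ (Ne.symm hyu), ← hc]; exact Upy.2.1
    · intro w hw
      rw [e1 _ _ (Ne.symm hyu)]
      by_cases hwy : w = y
      · subst hwy; rw [update_self, ← hc]; exact hby
      · rw [e1 _ _ hwy]; exact fun e => hwy (Upy.2.2 w hw (e.trans hc.symm))
    · refine ⟨hpv, by rw [e1 _ _ (Ne.symm hyv)]; exact Upv.2.1, fun w hw he => ?_⟩
      rw [e1 _ _ (Ne.symm hyv)] at he
      by_cases hwy : w = y
      · subst hwy; rw [update_self] at he; exact absurd he hbv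
      · rw [e1 _ _ hwy] at he; exact Upv.2.2 w hw he
  push Not at hex
  have hbv : b = φ v := hex b hb hby hb2
  subst hbv
  have hpu : ¬ G.Adj p u := fun e => hyu (Upy.2.2 u e hc.symm).symm
  by_cases hW : ∃ z, G.Adj v z ∧ G.Adj z u
  · obtain ⟨z, hz, hzu⟩ := hW
    have Fz := F z (hall z (Or.inl hz))
    have hzp : z ≠ p := fun e => hpu (e ▸ hzu)
    by_cases hzp' : G.Adj z p
    · exact (W2 h Uuv Uvu Uvp hc hyu hb hb2 hpu' Upy Upv (F u hu z hzu.symm) (F v hv z hz)
        (Fz u hzu) (Fz v hz.symm) (Fz p hzp') (Fp z hzp'.symm)).mono (by norm_num)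
    · exact (W1 h Uuv Uvu Uvp hc hyu hb hb2 hpu' Upy Upv (F u hu z hzu.symm) (F v hv z hz)
        (Fz u hzu) (Fz v hz.symm) hzp' hzp).mono (by norm_num)
  push Not at hW
  obtain ⟨z, hz, hzu, hzp⟩ := exists_third (a := u) (b := p) hdv
  have hzu' : ¬ G.Adj z u := hW z hz
  obtain ⟨P, hP, hPv, -⟩ := exists_third (a := v) (b := v) hdu
  have hPv' : ¬ G.Adj P v := fun e => hW P e.symm hP.symm
  have hzf := hall z (Or.inl hz)
  have hPf := hall P (Or.inr hP)
  have Fz := F z hzf
  have FP := F P hPf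
  have T1p : T1 G L (update φ y (φ v)) u v p :=
    T1_of h Fp hpf hpv hpu' hyp.symm hyu hyv hc huv
  have hcol' := hcol (φ v) hb hb2
  refine (conj h Uuv Uvu hyu hyv ayu ayv hb hb2 (n := 12) ?_)
  by_cases hzy : G.Adj z y
  · have T1z : T1 G L (update φ y (φ v)) u v z :=
      T1_of h Fz hzf hz.symm hzu hzy hyu hyv hc huv
    have hPy : ¬ G.Adj P y := by
      intro e
      exact hyu ((FP u hP.symm).2.2 y e hc)
    have hPy' : P ≠ y := fun e => hPf (e ▸ hyf)
    have FP' : Frz G L (update φ y (φ v)) P := fun w hw => (FP w hw).upd hPy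
    by_cases hq : φ P = φ p
    · have hne : update φ y (φ v) P ≠ update φ y (φ v) z := by
        rw [e1 _ _ hPy', e1 _ _ (G.ne_of_adj hzy), hq]
        intro e
        exact hzp (Uvp.2.2 z hz e.symm)
      exact pair56 hcol' (Uuv.upd ayu') (Uvu.upd ayv') ((F v hv z hz).upd ayv') T1z
        ((F u hu P hP).upd ayu') hPv hPv' FP' hne
    · have hne : update φ y (φ v) P ≠ update φ y (φ v) p := by
        rwa [e1 _ _ hPy', e1 _ _ npy]
      exact pair56 hcol' (Uuv.upd ayu') (Uvu.upd ayv') (Uvp.upd ayv') T1p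
        ((F u hu P hP).upd ayu') hPv hPv' FP' hne
  · obtain ⟨t1, t2, t3, t4, t5, t6, t7⟩ := T1p
    exact (LL4 hcol' (Uuv.upd ayu') (Uvu.upd ayv') (Uvp.upd ayv') t4 t5 t3
      ((F v hv z hz).upd ayv') hzu hzp hzu' ((Fz v hz.symm).upd hzy)).mono (by norm_num)

/-- a step towards a vertex -/
theorem exists_step (hconn : G.Connected) {x v : V} {k : ℕ} (hd : G.dist x v = k + 1) :
    ∃ y, G.Adj x y ∧ G.dist y v = k := by
  obtain ⟨W, hW⟩ := (hconn x v).exists_walk_length_eq_dist
  cases W with
  | nil => simp at hd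
  | @cons _ y _ h q =>
    refine ⟨y, h, ?_⟩
    rw [SimpleGraph.Walk.length_cons, hd] at hW
    have h1 : G.dist y v ≤ k := by
      have := SimpleGraph.dist_le q
      omega
    have h2 : G.dist x v ≤ G.dist x y + G.dist y v := hconn.dist_triangle
    have h3 : G.dist x y = 1 := SimpleGraph.dist_eq_one_iff_adj.2 h
    omega

theorem claimA (hconn : G.Connected) (hcard : ∀ x, G.degree x + 1 ≤ (L x).card)
    (hd : ∀ x, 3 ≤ G.degree x) (k : ℕ) : ∀ (u v : V) (φ : V → κ), IsCol G L φ →
    ¬ Free G L φ u → ¬ Free G L φ v → G.Adj u v →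
    (∀ z, G.Adj v z ∨ G.Adj u z → ¬ Free G L φ z) →
    (∃ x, Free G L φ x ∧ (G.dist x u ≤ k ∨ G.dist x v ≤ k)) →
    Reach G L (14 + 2 * k) φ (sw φ u v) := by
  induction k with
  | zero =>
    rintro u v φ h hu hv huv hall ⟨x, hx, hx2⟩
    exfalso
    rcases hx2 with hx2 | hx2
    · have : x = u := (hconn x u).dist_eq_zero_iff.1 (by omega)
      exact hu (this ▸ hx)
    · have : x = v := (hconn x v).dist_eq_zero_iff.1 (by omega)
      exact hv (this ▸ hx)
  | succ k ih =>
    intro u v φ h hu hv huv hall hex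
    by_cases hnear : ∃ x, Free G L φ x ∧ (G.dist x u ≤ k ∨ G.dist x v ≤ k)
    · exact (ih u v φ h hu hv huv hall hnear).mono (by omega)
    push Not at hnear
    obtain ⟨x, hx, hx2⟩ := hex
    have hxk := hnear x hx
    -- one orientation
    have main : ∀ u v : V, ¬ Free G L φ u → ¬ Free G L φ v → G.Adj u v →
        (∀ z, G.Adj v z ∨ G.Adj u z → ¬ Free G L φ z) →
        (∀ z, Free G L φ z → k < G.dist z u ∧ k < G.dist z v) →
        G.dist x v = k + 1 → Reach G L (14 + 2 * (k + 1)) φ (sw φ u v) := by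
      intro u v hu hv huv hall hnear hxv
      obtain ⟨p, hxp, hpv⟩ := exists_step hconn hxv
      have hxk := hnear x hx
      by_cases hk0 : k = 0
      · exfalso
        subst hk0
        have : p = v := (hconn p v).dist_eq_zero_iff.1 hpv
        subst this
        exact hall x (Or.inl hxp.symm) hx
      by_cases hk1 : k = 1
      · subst hk1
        exact (K2 h hcard (hd u) (hd v) hu hv huv hall hx hxp
          (SimpleGraph.dist_eq_one_iff_adj.1 hpv)).mono (by norm_num)
      have hpf : ¬ Free G L φ p := fun e => by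
        have := (hnear p e).2
        omega
      have Fp := frz_of_not_free h (hcard p) hpf
      have Fu := frz_of_not_free h (hcard u) hu
      have Fv := frz_of_not_free h (hcard v) hv
      obtain ⟨b, hb, hbx, hb2⟩ := id hx
      have hne : ∀ z, (G.dist z u ≤ 1 ∨ G.dist z v ≤ 1) → z ≠ x ∧ ¬ G.Adj z x := by
        intro z hz
        constructor
        · rintro rfl
          rcases hz with hz | hz
          · have := hxk.1; omega
          · have := hxk.2; omega
        · intro e
          have e1 : G.dist x z = 1 := SimpleGraph.dist_eq_one_iff_adj.2 e.symm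
          rcases hz with hz | hz
          · have h2 : G.dist x u ≤ G.dist x z + G.dist z u := hconn.dist_triangle
            have := hxk.1; omega
          · have h2 : G.dist x v ≤ G.dist x z + G.dist z v := hconn.dist_triangle
            have := hxk.2; omega
      have hux := hne u (Or.inl (by simp))
      have hvx := hne v (Or.inr (by simp))
      have key := ih u v (update φ x b) (h.upd hb hb2) (not_free_upd hu hux.2 hux.1)
        (not_free_upd hv hvx.2 hvx.1) huv (by
          intro z hz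
          have hzx := hne z (by
            rcases hz with hz | hz
            · right; rw [SimpleGraph.dist_eq_one_iff_adj.2 hz.symm]
            · left; rw [SimpleGraph.dist_eq_one_iff_adj.2 hz.symm])
          exact not_free_upd (hall z hz) hzx.2 hzx.1) ⟨p, by
            refine ⟨φ x, (Fp x hxp.symm).2.1, ?_, ?_⟩
            · rw [update_of_ne (G.ne_of_adj hxp).symm]; exact h.2 _ _ hxp
            · intro w hw
              by_cases hwx : w = x
              · subst hwx; rw [update_self]; exact hbx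
              · rw [update_of_ne hwx]
                exact fun e => hwx ((Fp x hxp.symm).2.2 w hw e), Or.inr (by omega)⟩
      exact (conj h (Fu v huv) (Fv u huv.symm) (Ne.symm hux.1) (Ne.symm hvx.1)
        (fun e => hux.2 e.symm) (fun e => hvx.2 e.symm) hb hb2 key).mono (by omega)
    have hnear' : ∀ z, Free G L φ z → k < G.dist z u ∧ k < G.dist z v := hnear
    rcases hx2 with hx2 | hx2
    · have := main v u hv hu huv.symm (fun z hz => hall z hz.symm)
        (fun z hz => (hnear' z hz).symm) (by omega)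
      rwa [sw_comm] at this
    · exact main u v hu hv huv hall hnear' (by omega)

/-- **Swap Lemma.** -/
theorem swap_lemma (hconn : G.Connected) (hcard : ∀ x, G.degree x + 1 ≤ (L x).card)
    (hd : ∀ x, 3 ≤ G.degree x) {φ : V → κ} (h : IsCol G L φ) {u v : V} (huv : G.Adj u v)
    (hu : ¬ Free G L φ u) (hv : ¬ Free G L φ v) {w : V} (hw : Free G L φ w)
    (hw' : Free G L (sw φ u v) w) {R : ℕ} (hR : G.dist w u ≤ R ∨ G.dist w v ≤ R) :
    Reach G L (14 + 2 * R) φ (sw φ u v) := by
  by_cases hall : ∀ z, G.Adj v z ∨ G.Adj u z → ¬ Free G L φ z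
  · exact claimA hconn hcard hd R u v φ h hu hv huv hall ⟨w, hw, hR⟩
  push Not at hall
  obtain ⟨p, hp, hpf⟩ := hall
  rcases K1 h hcard (hd u) (hd v) hu hv huv hp hpf with h1 | h1
  · exact h1.mono (by omega)
  have Fu := frz_of_not_free h (hcard u) hu
  have Fv := frz_of_not_free h (hcard v) hv
  have key := claimA hconn hcard hd R u v (sw φ u v) (isCol_sw h (Fu v huv) (Fv u huv.symm))
    (not_free_sw_left h huv (Fu v huv).2.1 hu) (not_free_sw_right h huv (Fv u huv.symm).2.1 hv)
    huv h1 ⟨w, hw', hR⟩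
  rw [sw_sw] at key
  exact key.symm

end RC
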