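import Pool.Agent.helper4.RC.Defs

/-! MP_e02c34_co : the local move sequences (helper4). -/

namespace RC

open Function

set_option linter.unusedVariables false

variable {V κ : Type*} [DecidableEq V] {G : SimpleGraph V} {L : V → Finset κ}

theorem LL1 {φ : V → κ} (h : IsCol G L φ) {u v p : V} (Uuv : Uq G L φ u v)
    (Uvu : Uq G L φ v u) (Uvp : Uq G L φ v p) (hpu : p ≠ u) {b : κ} (hb : b ∈ L p)
    (hbp : b ≠ φ p) (hb2 : ∀ w, G.Adj p w → φ w ≠ b) (hbc : b ≠ φ u) :
    Reach G L 5 φ (sw φ u v) := by
  have h0 := Reach.refl 0 h
  obtain ⟨hL, hA⟩ := h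
  have hs := G.loopless.irrefl
  have hsym : ∀ a b, G.Adj a b → G.Adj b a := fun a b h => h.symm
  simp only [Uq] at *
  have h1 := h0.mv p b (by grind) (by
    grind (gen := 40) (ematch := 40) (splits := 60) [Function.update_apply])
  have h2 := h1.mv v (φ p) (by grind) (by
    grind (gen := 40) (ematch := 40) (splits := 60) [Function.update_apply])
  have h3 := h2.mv u (φ v) (by grind) (by
    grind (gen := 40) (ematch := 40) (splits := 60) [Function.update_apply])
  have h4 := h3.mv v (φ u) (by grind) (by
    grind (gen := 40) (ematch := 40) (splits := 60) [Function.update_apply])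
  have h5 := h4.mv p (φ p) (by grind) (by
    grind (gen := 40) (ematch := 40) (splits := 60) [Function.update_apply])
  convert h5 using 1
  funext w
  rw [sw_apply]
  grind (gen := 40) (ematch := 40) (splits := 60) [Function.update_apply]

theorem LL2 {φ : V → κ} (h : IsCol G L φ) {u v p : V} (Uuv : Uq G L φ u v)
    (Uvu : Uq G L φ v u) (Uvp : Uq G L φ v p) (hc : φ u ∈ L p)
    (hc2 : ∀ w, G.Adj p w → φ w ≠ φ u) (hpu : p ≠ u) (Upv : Uq G L φ p v) :
    Reach G L 6 φ (sw φ u v) := by
  have h0 := Reach.refl 0 h
  obtain ⟨hL, hA⟩ := h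
  have hs := G.loopless.irrefl
  have hsym : ∀ a b, G.Adj a b → G.Adj b a := fun a b h => h.symm
  simp only [Uq] at *
  have h1 := h0.mv p (φ u) (by grind) (by
    grind (gen := 40) (ematch := 40) (splits := 60) [Function.update_apply])
  have h2 := h1.mv v (φ p) (by grind) (by
    grind (gen := 40) (ematch := 40) (splits := 60) [Function.update_apply])
  have h3 := h2.mv u (φ v) (by grind) (by
    grind (gen := 40) (ematch := 40) (splits := 60) [Function.update_apply])
  have h4 := h3.mv p (φ v) (by grind) (by
    grind (gen := 40) (ematch := 40) (splits := 60) [Function.update_apply])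
  have h5 := h4.mv v (φ u) (by grind) (by
    grind (gen := 40) (ematch := 40) (splits := 60) [Function.update_apply])
  have h6 := h5.mv p (φ p) (by grind) (by
    grind (gen := 40) (ematch := 40) (splits := 60) [Function.update_apply])
  convert h6 using 1
  funext w
  rw [sw_apply]
  grind (gen := 40) (ematch := 40) (splits := 60) [Function.update_apply]

theorem LL4 {φ : V → κ} (h : IsCol G L φ) {u v p z : V} (Uuv : Uq G L φ u v)
    (Uvu : Uq G L φ v u) (Uvp : Uq G L φ v p) (hc : φ u ∈ L p)
    (hc2 : ∀ w, G.Adj p w → φ w ≠ φ u) (hpu : p ≠ u)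
    (Uvz : Uq G L φ v z) (hzu : z ≠ u) (hzp : z ≠ p) (hzu' : ¬ G.Adj z u)
    (Uzv : Uq G L φ z v) :
    Reach G L 8 φ (sw φ u v) := by
  have h0 := Reach.refl 0 h
  obtain ⟨hL, hA⟩ := h
  have hs := G.loopless.irrefl
  have hsym : ∀ a b, G.Adj a b → G.Adj b a := fun a b h => h.symm
  simp only [Uq] at *
  have h1 := h0.mv p (φ u) (by grind) (by
    grind (gen := 40) (ematch := 40) (splits := 60) [Function.update_apply])
  have h2 := h1.mv v (φ p) (by grind) (by
    grind (gen := 40) (ematch := 40) (splits := 60) [Function.update_apply])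
  have h3 := h2.mv u (φ v) (by grind) (by
    grind (gen := 40) (ematch := 40) (splits := 60) [Function.update_apply])
  have h4 := h3.mv z (φ v) (by grind) (by
    grind (gen := 40) (ematch := 40) (splits := 60) [Function.update_apply])
  have h5 := h4.mv v (φ z) (by grind) (by
    grind (gen := 40) (ematch := 40) (splits := 60) [Function.update_apply])
  have h6 := h5.mv p (φ p) (by grind) (by
    grind (gen := 40) (ematch := 40) (splits := 60) [Function.update_apply])
  have h7 := h6.mv v (φ u) (by grind) (by
    grind (gen := 40) (ematch := 40) (splits := 60) [Function.update_apply])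
  have h8 := h7.mv z (φ z) (by grind) (by
    grind (gen := 40) (ematch := 40) (splits := 60) [Function.update_apply])
  convert h8 using 1
  funext w
  rw [sw_apply]
  grind (gen := 40) (ematch := 40) (splits := 60) [Function.update_apply]

theorem LL5 {φ : V → κ} (h : IsCol G L φ) {u v p P : V} (Uuv : Uq G L φ u v)
    (Uvu : Uq G L φ v u) (Uvp : Uq G L φ v p) (hc : φ u ∈ L p)
    (hc2 : ∀ w, G.Adj p w → φ w ≠ φ u) (hpu : p ≠ u)
    (UuP : Uq G L φ u P) (hPv : P ≠ v) (hPv' : ¬ G.Adj P v) (UPu : Uq G L φ P u)
    (hPp : ¬ G.Adj P p) (hne : φ P ≠ φ p) :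
    Reach G L 10 φ (sw φ u v) := by
  have h0 := Reach.refl 0 h
  obtain ⟨hL, hA⟩ := h
  have hs := G.loopless.irrefl
  have hsym : ∀ a b, G.Adj a b → G.Adj b a := fun a b h => h.symm
  simp only [Uq] at *
  have h1 := h0.mv p (φ u) (by grind) (by
    grind (gen := 40) (ematch := 40) (splits := 60) [Function.update_apply])
  have h2 := h1.mv v (φ p) (by grind) (by
    grind (gen := 40) (ematch := 40) (splits := 60) [Function.update_apply])
  have h3 := h2.mv u (φ v) (by grind) (by
    grind (gen := 40) (ematch := 40) (splits := 60) [Function.update_apply])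
  have h4 := h3.mv P (φ u) (by grind) (by
    grind (gen := 40) (ematch := 40) (splits := 60) [Function.update_apply])
  have h5 := h4.mv u (φ P) (by grind) (by
    grind (gen := 40) (ematch := 40) (splits := 60) [Function.update_apply])
  have h6 := h5.mv v (φ v) (by grind) (by
    grind (gen := 40) (ematch := 40) (splits := 60) [Function.update_apply])
  have h7 := h6.mv p (φ p) (by grind) (by
    grind (gen := 40) (ematch := 40) (splits := 60) [Function.update_apply])
  have h8 := h7.mv v (φ u) (by grind) (by
    grind (gen := 40) (ematch := 40) (splits := 60) [Function.update_apply])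
  have h9 := h8.mv u (φ v) (by grind) (by
    grind (gen := 40) (ematch := 40) (splits := 60) [Function.update_apply])
  have h10 := h9.mv P (φ P) (by grind) (by
    grind (gen := 40) (ematch := 40) (splits := 60) [Function.update_apply])
  convert h10 using 1
  funext w
  rw [sw_apply]
  grind (gen := 40) (ematch := 40) (splits := 60) [Function.update_apply]

theorem LL6 {φ : V → κ} (h : IsCol G L φ) {u v p P : V} (Uuv : Uq G L φ u v)
    (Uvu : Uq G L φ v u) (Uvp : Uq G L φ v p) (hc : φ u ∈ L p)
    (hc2 : ∀ w, G.Adj p w → φ w ≠ φ u) (hpu : p ≠ u)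
    (UuP : Uq G L φ u P) (hPv : P ≠ v) (hPv' : ¬ G.Adj P v) (UPu : Uq G L φ P u)
    (UpP : Uq G L φ p P) (UPp : Uq G L φ P p) :
    Reach G L 12 φ (sw φ u v) := by
  have h0 := Reach.refl 0 h
  obtain ⟨hL, hA⟩ := h
  have hs := G.loopless.irrefl
  have hsym : ∀ a b, G.Adj a b → G.Adj b a := fun a b h => h.symm
  simp only [Uq] at *
  have h1 := h0.mv p (φ u) (by grind) (by
    grind (gen := 40) (ematch := 40) (splits := 60) [Function.update_apply])
  have h2 := h1.mv v (φ p) (by grind) (by
    grind (gen := 40) (ematch := 40) (splits := 60) [Function.update_apply])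
  have h3 := h2.mv u (φ v) (by grind) (by
    grind (gen := 40) (ematch := 40) (splits := 60) [Function.update_apply])
  have h4 := h3.mv P (φ p) (by grind) (by
    grind (gen := 40) (ematch := 40) (splits := 60) [Function.update_apply])
  have h5 := h4.mv u (φ P) (by grind) (by
    grind (gen := 40) (ematch := 40) (splits := 60) [Function.update_apply])
  have h6 := h5.mv v (φ v) (by grind) (by
    grind (gen := 40) (ematch := 40) (splits := 60) [Function.update_apply])
  have h7 := h6.mv p (φ P) (by grind) (by
    grind (gen := 40) (ematch := 40) (splits := 60) [Function.update_apply])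
  have h8 := h7.mv v (φ u) (by grind) (by
    grind (gen := 40) (ematch := 40) (splits := 60) [Function.update_apply])
  have h9 := h8.mv u (φ v) (by grind) (by
    grind (gen := 40) (ematch := 40) (splits := 60) [Function.update_apply])
  have h10 := h9.mv P (φ u) (by grind) (by
    grind (gen := 40) (ematch := 40) (splits := 60) [Function.update_apply])
  have h11 := h10.mv p (φ p) (by grind) (by
    grind (gen := 40) (ematch := 40) (splits := 60) [Function.update_apply])
  have h12 := h11.mv P (φ P) (by grind) (by
    grind (gen := 40) (ematch := 40) (splits := 60) [Function.update_apply])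
  convert h12 using 1
  funext w
  rw [sw_apply]
  grind (gen := 40) (ematch := 40) (splits := 60) [Function.update_apply]

theorem V1 {φ : V → κ} (h : IsCol G L φ) {u v p P z : V} (Uuv : Uq G L φ u v)
    (Uvu : Uq G L φ v u) (Uvp : Uq G L φ v p) (hc : φ u ∈ L p)
    (hc2 : ∀ w, G.Adj p w → φ w ≠ φ u) (hpu : p ≠ u)
    (UuP : Uq G L φ u P) (hPv : P ≠ v) (hPv' : ¬ G.Adj P v) (UPu : Uq G L φ P u)
    (hne : φ P = φ p) (Uuz : Uq G L φ u z) (Uvz : Uq G L φ v z) (Uzu : Uq G L φ z u)
    (Uzv : Uq G L φ z v) (hzp : ¬ G.Adj z p) (hzP : ¬ G.Adj z P) :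
    Reach G L 13 φ (sw φ u v) := by
  have h0 := Reach.refl 0 h
  obtain ⟨hL, hA⟩ := h
  have hs := G.loopless.irrefl
  have hsym : ∀ a b, G.Adj a b → G.Adj b a := fun a b h => h.symm
  simp only [Uq] at *
  have h1 := h0.mv p (φ u) (by grind) (by
    grind (gen := 40) (ematch := 40) (splits := 60) [Function.update_apply])
  have h2 := h1.mv v (φ p) (by grind) (by
    grind (gen := 40) (ematch := 40) (splits := 60) [Function.update_apply])
  have h3 := h2.mv u (φ v) (by grind) (by
    grind (gen := 40) (ematch := 40) (splits := 60) [Function.update_apply])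
  have h4 := h3.mv z (φ u) (by grind) (by
    grind (gen := 40) (ematch := 40) (splits := 60) [Function.update_apply])
  have h5 := h4.mv v (φ z) (by grind) (by
    grind (gen := 40) (ematch := 40) (splits := 60) [Function.update_apply])
  have h6 := h5.mv p (φ p) (by grind) (by
    grind (gen := 40) (ematch := 40) (splits := 60) [Function.update_apply])
  have h7 := h6.mv P (φ u) (by grind) (by
    grind (gen := 40) (ematch := 40) (splits := 60) [Function.update_apply])
  have h8 := h7.mv u (φ p) (by grind) (by
    grind (gen := 40) (ematch := 40) (splits := 60) [Function.update_apply])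
  have h9 := h8.mv v (φ v) (by grind) (by
    grind (gen := 40) (ematch := 40) (splits := 60) [Function.update_apply])
  have h10 := h9.mv z (φ z) (by grind) (by
    grind (gen := 40) (ematch := 40) (splits := 60) [Function.update_apply])
  have h11 := h10.mv v (φ u) (by grind) (by
    grind (gen := 40) (ematch := 40) (splits := 60) [Function.update_apply])
  have h12 := h11.mv u (φ v) (by grind) (by
    grind (gen := 40) (ematch := 40) (splits := 60) [Function.update_apply])
  have h13 := h12.mv P (φ p) (by grind) (by
    grind (gen := 40) (ematch := 40) (splits := 60) [Function.update_apply])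
  convert h13 using 1
  funext w
  rw [sw_apply]
  grind (gen := 40) (ematch := 40) (splits := 60) [Function.update_apply]

theorem V2 {φ : V → κ} (h : IsCol G L φ) {u v p P z : V} (Uuv : Uq G L φ u v)
    (Uvu : Uq G L φ v u) (Uvp : Uq G L φ v p) (hc : φ u ∈ L p)
    (hc2 : ∀ w, G.Adj p w → φ w ≠ φ u) (hpu : p ≠ u)
    (UuP : Uq G L φ u P) (hPv : P ≠ v) (hPv' : ¬ G.Adj P v) (UPu : Uq G L φ P u)
    (hne : φ P = φ p) (Uuz : Uq G L φ u z) (Uvz : Uq G L φ v z) (Uzu : Uq G L φ z u)
    (Uzv : Uq G L φ z v) (Upz : Uq G L φ p z) (hzP : ¬ G.Adj z P) :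
    Reach G L 12 φ (sw φ u v) := by
  have h0 := Reach.refl 0 h
  obtain ⟨hL, hA⟩ := h
  have hs := G.loopless.irrefl
  have hsym : ∀ a b, G.Adj a b → G.Adj b a := fun a b h => h.symm
  simp only [Uq] at *
  have h1 := h0.mv p (φ u) (by grind) (by
    grind (gen := 40) (ematch := 40) (splits := 60) [Function.update_apply])
  have h2 := h1.mv v (φ p) (by grind) (by
    grind (gen := 40) (ematch := 40) (splits := 60) [Function.update_apply])
  have h3 := h2.mv z (φ v) (by grind) (by
    grind (gen := 40) (ematch := 40) (splits := 60) [Function.update_apply])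
  have h4 := h3.mv u (φ z) (by grind) (by
    grind (gen := 40) (ematch := 40) (splits := 60) [Function.update_apply])
  have h5 := h4.mv p (φ z) (by grind) (by
    grind (gen := 40) (ematch := 40) (splits := 60) [Function.update_apply])
  have h6 := h5.mv v (φ u) (by grind) (by
    grind (gen := 40) (ematch := 40) (splits := 60) [Function.update_apply])
  have h7 := h6.mv p (φ p) (by grind) (by
    grind (gen := 40) (ematch := 40) (splits := 60) [Function.update_apply])
  have h8 := h7.mv P (φ u) (by grind) (by
    grind (gen := 40) (ematch := 40) (splits := 60) [Function.update_apply])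
  have h9 := h8.mv u (φ p) (by grind) (by
    grind (gen := 40) (ematch := 40) (splits := 60) [Function.update_apply])
  have h10 := h9.mv z (φ z) (by grind) (by
    grind (gen := 40) (ematch := 40) (splits := 60) [Function.update_apply])
  have h11 := h10.mv u (φ v) (by grind) (by
    grind (gen := 40) (ematch := 40) (splits := 60) [Function.update_apply])
  have h12 := h11.mv P (φ p) (by grind) (by
    grind (gen := 40) (ematch := 40) (splits := 60) [Function.update_apply])
  convert h12 using 1
  funext w
  rw [sw_apply]
  grind (gen := 40) (ematch := 40) (splits := 60) [Function.update_apply]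

theorem W1 {φ : V → κ} (h : IsCol G L φ) {u v p y z : V} (Uuv : Uq G L φ u v)
    (Uvu : Uq G L φ v u) (Uvp : Uq G L φ v p) (hyc : φ y = φ u) (hyu : y ≠ u)
    (hg : φ v ∈ L y) (hg2 : ∀ w, G.Adj y w → φ w ≠ φ v)
    (hpu : p ≠ u) (Upy : Uq G L φ p y) (Upv : Uq G L φ p v)
    (Uuz : Uq G L φ u z) (Uvz : Uq G L φ v z) (Uzu : Uq G L φ z u)
    (Uzv : Uq G L φ z v) (hzp : ¬ G.Adj z p) (hzp' : z ≠ p) :
    Reach G L 13 φ (sw φ u v) := by
  have h0 := Reach.refl 0 h
  obtain ⟨hL, hA⟩ := h
  have hs := G.loopless.irrefl
  have hsym : ∀ a b, G.Adj a b → G.Adj b a := fun a b h => h.symm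
  simp only [Uq] at *
  have h1 := h0.mv y (φ v) (by grind) (by
    grind (gen := 40) (ematch := 40) (splits := 60) [Function.update_apply])
  have h2 := h1.mv p (φ u) (by grind) (by
    grind (gen := 40) (ematch := 40) (splits := 60) [Function.update_apply])
  have h3 := h2.mv v (φ p) (by grind) (by
    grind (gen := 40) (ematch := 40) (splits := 60) [Function.update_apply])
  have h4 := h3.mv u (φ v) (by grind) (by
    grind (gen := 40) (ematch := 40) (splits := 60) [Function.update_apply])
  have h5 := h4.mv z (φ u) (by grind) (by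
    grind (gen := 40) (ematch := 40) (splits := 60) [Function.update_apply])
  have h6 := h5.mv v (φ z) (by grind) (by
    grind (gen := 40) (ematch := 40) (splits := 60) [Function.update_apply])
  have h7 := h6.mv p (φ p) (by grind) (by
    grind (gen := 40) (ematch := 40) (splits := 60) [Function.update_apply])
  have h8 := h7.mv y (φ u) (by grind) (by
    grind (gen := 40) (ematch := 40) (splits := 60) [Function.update_apply])
  have h9 := h8.mv p (φ v) (by grind) (by
    grind (gen := 40) (ematch := 40) (splits := 60) [Function.update_apply])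
  have h10 := h9.mv v (φ p) (by grind) (by
    grind (gen := 40) (ematch := 40) (splits := 60) [Function.update_apply])
  have h11 := h10.mv z (φ z) (by grind) (by
    grind (gen := 40) (ematch := 40) (splits := 60) [Function.update_apply])
  have h12 := h11.mv v (φ u) (by grind) (by
    grind (gen := 40) (ematch := 40) (splits := 60) [Function.update_apply])
  have h13 := h12.mv p (φ p) (by grind) (by
    grind (gen := 40) (ematch := 40) (splits := 60) [Function.update_apply])
  convert h13 using 1
  funext w
  rw [sw_apply]
  grind (gen := 40) (ematch := 40) (splits := 60) [Function.update_apply]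

theorem W2 {φ : V → κ} (h : IsCol G L φ) {u v p y z : V} (Uuv : Uq G L φ u v)
    (Uvu : Uq G L φ v u) (Uvp : Uq G L φ v p) (hyc : φ y = φ u) (hyu : y ≠ u)
    (hg : φ v ∈ L y) (hg2 : ∀ w, G.Adj y w → φ w ≠ φ v)
    (hpu : p ≠ u) (Upy : Uq G L φ p y) (Upv : Uq G L φ p v)
    (Uuz : Uq G L φ u z) (Uvz : Uq G L φ v z) (Uzu : Uq G L φ z u)
    (Uzv : Uq G L φ z v) (Uzp : Uq G L φ z p) (Upz : Uq G L φ p z) :
    Reach G L 11 φ (sw φ u v) := by
  have h0 := Reach.refl 0 h
  obtain ⟨hL, hA⟩ := h
  have hs := G.loopless.irrefl
  have hsym : ∀ a b, G.Adj a b → G.Adj b a := fun a b h => h.symm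
  simp only [Uq] at *
  have h1 := h0.mv y (φ v) (by grind) (by
    grind (gen := 40) (ematch := 40) (splits := 60) [Function.update_apply])
  have h2 := h1.mv p (φ u) (by grind) (by
    grind (gen := 40) (ematch := 40) (splits := 60) [Function.update_apply])
  have h3 := h2.mv z (φ p) (by grind) (by
    grind (gen := 40) (ematch := 40) (splits := 60) [Function.update_apply])
  have h4 := h3.mv u (φ z) (by grind) (by
    grind (gen := 40) (ematch := 40) (splits := 60) [Function.update_apply])
  have h5 := h4.mv p (φ z) (by grind) (by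
    grind (gen := 40) (ematch := 40) (splits := 60) [Function.update_apply])
  have h6 := h5.mv v (φ u) (by grind) (by
    grind (gen := 40) (ematch := 40) (splits := 60) [Function.update_apply])
  have h7 := h6.mv u (φ v) (by grind) (by
    grind (gen := 40) (ematch := 40) (splits := 60) [Function.update_apply])
  have h8 := h7.mv y (φ u) (by grind) (by
    grind (gen := 40) (ematch := 40) (splits := 60) [Function.update_apply])
  have h9 := h8.mv p (φ v) (by grind) (by
    grind (gen := 40) (ematch := 40) (splits := 60) [Function.update_apply])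
  have h10 := h9.mv z (φ z) (by grind) (by
    grind (gen := 40) (ematch := 40) (splits := 60) [Function.update_apply])
  have h11 := h10.mv p (φ p) (by grind) (by
    grind (gen := 40) (ematch := 40) (splits := 60) [Function.update_apply])
  convert h11 using 1
  funext w
  rw [sw_apply]
  grind (gen := 40) (ematch := 40) (splits := 60) [Function.update_apply]

end RC
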