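import Pool.Agent.helper4.RC.K2

/-! MP_e02c34_co : setting the colour of one vertex, and the main transfer (helper4). -/

namespace RC

open Function

set_option linter.unusedVariables false
set_option linter.unusedSectionVars false

variable {V κ : Type*} [DecidableEq V] {G : SimpleGraph V} {L : V → Finset κ}

/-- move the vertices of a set of free vertices of colour `c` off this colour -/
theorem off (X : Finset V) (c : κ) : ∀ (φ : V → κ), IsCol G L φ →
    (∀ x ∈ X, φ x = c ∧ Free G L φ x) →
    ∃ ψ, Reach G L X.card φ ψ ∧ (∀ x ∈ X, ψ x ≠ c) ∧ ∀ x, x ∉ X → ψ x = φ x := by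
  induction X using Finset.induction_on with
  | empty =>
    intro φ h _
    exact ⟨φ, Reach.refl _ h, by simp, fun _ _ => rfl⟩
  | insert x X hx ih =>
    intro φ h hX
    obtain ⟨hxc, b, hb, hbx, hb2⟩ := hX x (Finset.mem_insert_self _ _)
    have h1 : IsCol G L (update φ x b) := h.upd hb hb2
    obtain ⟨ψ, hr, hψ, hψ'⟩ := ih (update φ x b) h1 (by
      intro y hy
      obtain ⟨hyc, d, hd, hdy, hd2⟩ := hX y (Finset.mem_insert_of_mem hy)
      have hne : y ≠ x := fun e => hx (e ▸ hy)
      refine ⟨by rw [update_of_ne hne]; exact hyc, d, hd, by rw [update_of_ne hne]; exact hdy, ?_⟩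
      intro w hw
      have hwx : w ≠ x := by
        rintro rfl
        exact h.2 _ _ hw (hyc.trans hxc.symm)
      rw [update_of_ne hwx]
      exact hd2 w hw)
    refine ⟨ψ, ?_, ?_, ?_⟩
    · rw [Finset.card_insert_of_notMem hx, add_comm]
      exact ((Reach.refl 0 h).mv x b hb hb2).trans hr
    · intro y hy
      rcases Finset.mem_insert.1 hy with rfl | hy
      · rw [hψ' _ hx, update_self]
        rw [← hxc]; exact hbx
      · exact hψ y hy
    · intro y hy
      rw [Finset.mem_insert, not_or] at hy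
      rw [hψ' y hy.2, update_of_ne hy.1]

/-- recolour an independent set with the colour `c` -/
theorem onto (Y : Finset V) (c : κ) : ∀ (φ : V → κ), IsCol G L φ →
    (∀ y ∈ Y, c ∈ L y ∧ (∀ w, G.Adj y w → φ w ≠ c)) → (∀ y ∈ Y, ∀ z ∈ Y, ¬ G.Adj y z) →
    ∃ ψ, Reach G L Y.card φ ψ ∧ (∀ y ∈ Y, ψ y = c) ∧ ∀ x, x ∉ Y → ψ x = φ x := by
  induction Y using Finset.induction_on with
  | empty =>
    intro φ h _ _
    exact ⟨φ, Reach.refl _ h, by simp, fun _ _ => rfl⟩
  | insert x Y hx ih =>
    intro φ h hY hI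
    obtain ⟨hb, hb2⟩ := hY x (Finset.mem_insert_self _ _)
    have h1 : IsCol G L (update φ x c) := h.upd hb hb2
    obtain ⟨ψ, hr, hψ, hψ'⟩ := ih (update φ x c) h1 (by
      intro y hy
      obtain ⟨hd, hd2⟩ := hY y (Finset.mem_insert_of_mem hy)
      refine ⟨hd, ?_⟩
      intro w hw
      have hwx : w ≠ x := by
        rintro rfl
        exact hI y (Finset.mem_insert_of_mem hy) w (Finset.mem_insert_self _ _) hw
      rw [update_of_ne hwx]
      exact hd2 w hw) (fun y hy z hz => hI y (Finset.mem_insert_of_mem hy) z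
        (Finset.mem_insert_of_mem hz))
    refine ⟨ψ, ?_, ?_, ?_⟩
    · rw [Finset.card_insert_of_notMem hx, add_comm]
      exact ((Reach.refl 0 h).mv x c hb hb2).trans hr
    · intro y hy
      rcases Finset.mem_insert.1 hy with rfl | hy
      · rw [hψ' _ hx, update_self]
      · exact hψ y hy
    · intro y hy
      rw [Finset.mem_insert, not_or] at hy
      rw [hψ' y hy.2, update_of_ne hy.1]

variable [Fintype V] [DecidableRel G.Adj]

/-- the neighbours of `v` with colour `c` -/
def nb (G : SimpleGraph V) [DecidableRel G.Adj] [DecidableEq κ] (φ : V → κ) (v : V) (c : κ) :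
    Finset V := (G.neighborFinset v).filter fun x => φ x = c

theorem mem_nb [DecidableEq κ] {φ : V → κ} {v x : V} {c : κ} :
    x ∈ nb G φ v c ↔ G.Adj v x ∧ φ x = c := by
  simp [nb]

/-- **Set Lemma.** Give the vertex `v` the colour `c`, changing only `v` and its neighbours of
colour `c`. -/
theorem set_lemma [DecidableEq κ] (hconn : G.Connected)
    (hcard : ∀ x, G.degree x + 1 ≤ (L x).card)
    (hd : ∀ x, 3 ≤ G.degree x) {φ : V → κ} (h : IsCol G L φ) {v w : V} {c : κ} (hc : c ∈ L v)
    {R : ℕ} (hR : G.dist w v ≤ R)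
    (hw : ∀ ψ, IsCol G L ψ → (∀ x, x ≠ v → x ∉ nb G φ v c → ψ x = φ x) → Free G L ψ w) :
    ∃ ψ, Reach G L ((nb G φ v c).card + (16 + 2 * R)) φ ψ ∧ ψ v = c ∧
      ∀ x, x ≠ v → x ∉ nb G φ v c → ψ x = φ x := by
  classical
  by_cases hvc : φ v = c
  · exact ⟨φ, Reach.refl _ h, hvc, fun _ _ _ => rfl⟩
  set U := nb G φ v c with hU
  set X := U.filter fun x => Free G L φ x with hX
  set U' := U.filter fun x => ¬ Free G L φ x with hU'
  have hcardU : X.card + U'.card = U.card := by
    rw [hX, hU']
    exact Finset.card_filter_add_card_filter_not (s := U) (fun x => Free G L φ x)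
  obtain ⟨φ₁, hr₁, hX₁, hX₁'⟩ := off X c φ h (by
    intro x hx
    rw [hX, Finset.mem_filter] at hx
    exact ⟨(mem_nb.1 hx.1).2, hx.2⟩)
  have h₁ := hr₁.right_col
  have hvX : v ∉ X := by
    intro hx
    rw [hX, Finset.mem_filter] at hx
    exact G.loopless.irrefl _ (mem_nb.1 hx.1).1
  have hv₁ : φ₁ v = φ v := hX₁' v hvX
  -- neighbours of `v` of colour `c` in `φ₁`
  have hnb₁ : ∀ x, G.Adj v x → φ₁ x = c → x ∈ U' := by
    intro x hx hxc
    have hxX : x ∉ X := fun e => hX₁ x e hxc
    have h2 : φ x = c := by rw [← hX₁' x hxX]; exact hxc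
    have h3 : x ∈ U := mem_nb.2 ⟨hx, h2⟩
    rw [hU', Finset.mem_filter]
    refine ⟨h3, fun hf => hxX ?_⟩
    rw [hX, Finset.mem_filter]
    exact ⟨h3, hf⟩
  have hU'1 : ∀ n ∈ U', G.Adj v n ∧ φ n = c ∧ φ₁ n = c ∧ ¬ Free G L φ n ∧ ¬ Free G L φ₁ n ∧
      (∀ x, G.Adj n x → φ₁ x = φ x) := by
    intro n hn
    rw [hU', Finset.mem_filter] at hn
    have hn' := mem_nb.1 hn.1
    have hnX : n ∉ X := fun e => by
      rw [hX, Finset.mem_filter] at e
      exact hn.2 e.2
    have hnn : ∀ x, G.Adj n x → φ₁ x = φ x := by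
      intro x hx
      apply hX₁'
      intro e
      rw [hX, Finset.mem_filter] at e
      exact h.2 _ _ hx (hn'.2.trans (mem_nb.1 e.1).2.symm)
    refine ⟨hn'.1, hn'.2, by rw [hX₁' n hnX]; exact hn'.2, hn.2, ?_, hnn⟩
    rintro ⟨b, hb, hbn, hb2⟩
    apply hn.2
    refine ⟨b, hb, by rw [← hX₁' n hnX]; exact hbn, fun x hx => ?_⟩
    rw [← hnn x hx]; exact hb2 x hx
  have hagree₁ : ∀ x, x ≠ v → x ∉ U → φ₁ x = φ x := by
    intro x _ hxU
    apply hX₁'
    intro e
    rw [hX, Finset.mem_filter] at e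
    exact hxU e.1
  by_cases hvf : Free G L φ₁ v
  · -- v moves away, the frozen members take its colour
    obtain ⟨b, hb, hbv, hb2⟩ := hvf
    have hr₂ : Reach G L (X.card + 1) φ (update φ₁ v b) := hr₁.mv v b hb hb2
    have h₂ := hr₂.right_col
    obtain ⟨φ₃, hr₃, hY₃, hY₃'⟩ := onto U' (φ v) (update φ₁ v b) h₂ (by
      intro n hn
      obtain ⟨a1, a2, a3, a4, a5, a6⟩ := hU'1 n hn
      have Fn := frz_of_not_free h (hcard n) a4
      have Unv := Fn v a1.symm
      refine ⟨Unv.2.1, fun x hx => ?_⟩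
      by_cases hxv : x = v
      · subst hxv
        rw [update_self, ← hv₁]; exact hbv
      · rw [update_of_ne hxv, a6 x hx]
        exact fun e => hxv (Unv.2.2 x hx e)) (by
      intro y hy z hz hyz
      exact h.2 _ _ hyz ((hU'1 y hy).2.1.trans (hU'1 z hz).2.1.symm))
    have h₃ := hr₃.right_col
    have hvU' : v ∉ U' := fun e => G.loopless.irrefl _ (hU'1 v e).1
    have hfin : Reach G L (X.card + 1 + U'.card + 1) φ (update φ₃ v c) := by
      refine (hr₂.trans hr₃).mv v c hc ?_
      intro x hx hxc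
      by_cases hxU : x ∈ U'
      · rw [hY₃ x hxU] at hxc
        exact hvc hxc
      · have hxv : x ≠ v := (G.ne_of_adj hx).symm
        rw [hY₃' x hxU, update_of_ne hxv] at hxc
        exact hxU (hnb₁ x hx hxc)
    refine ⟨update φ₃ v c, hfin.mono (by omega), update_self _ _ _, fun x hxv hxU => ?_⟩
    rw [update_of_ne hxv]
    have hxU' : x ∉ U' := fun e => by
      rw [hU', Finset.mem_filter] at e
      exact hxU e.1
    rw [hY₃' x hxU', update_of_ne hxv]
    exact hagree₁ x hxv hxU
  · -- v is frozen in φ₁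
    have Fv := frz_of_not_free h₁ (hcard v) hvf
    rcases U'.eq_empty_or_nonempty with hemp | ⟨n, hn⟩
    · have hfin : Reach G L (X.card + 1) φ (update φ₁ v c) := by
        refine hr₁.mv v c hc ?_
        intro x hx hxc
        have := hnb₁ x hx hxc
        rw [hemp] at this
        simp at this
      refine ⟨update φ₁ v c, hfin.mono (by omega), update_self _ _ _, fun x hxv hxU => ?_⟩
      rw [update_of_ne hxv]
      exact hagree₁ x hxv hxU
    · obtain ⟨a1, a2, a3, a4, a5, a6⟩ := hU'1 n hn
      have hnv : n ≠ v := (G.ne_of_adj a1).symm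
      have Fn := frz_of_not_free h₁ (hcard n) a5
      have hcol' : IsCol G L (sw φ₁ n v) := isCol_sw h₁ (Fn v a1.symm) (Fv n a1)
      have hnU : n ∈ U := by
        rw [hU', Finset.mem_filter] at hn
        exact hn.1
      have hagree₂ : ∀ x, x ≠ v → x ∉ U → sw φ₁ n v x = φ x := by
        intro x hxv hxU
        have hxn : x ≠ n := fun e => hxU (e ▸ hnU)
        rw [sw_apply, if_neg hxv, if_neg hxn]
        exact hagree₁ x hxv hxU
      have hsw := swap_lemma hconn hcard hd h₁ a1.symm a5 hvf (w := w) (R := R)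
        (hw φ₁ h₁ hagree₁) (hw _ hcol' hagree₂) (Or.inr hR)
      refine ⟨sw φ₁ n v, (hr₁.trans hsw).mono ?_, ?_, hagree₂⟩
      · have : X.card ≤ U.card := by omega
        omega
      · rw [sw_apply, if_pos rfl]; exact a3

/-- every vertex is within distance `R` of a vertex which is free in all colourings agreeing
with `γ` on `M` -/
def Anch (G : SimpleGraph V) (L : V → Finset κ) (M : Finset V) (γ : V → κ) (R : ℕ) : Prop :=
  ∀ v, ∃ w, G.dist w v ≤ R ∧ ∀ ψ, IsCol G L ψ → (∀ x ∈ M, ψ x = γ x) → Free G L ψ w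

/-- **Main transfer.** -/
theorem transfer [DecidableEq κ] (hconn : G.Connected)
    (hcard : ∀ x, G.degree x + 1 ≤ (L x).card)
    (hd : ∀ x, 3 ≤ G.degree x) {M : Finset V} {γ : V → κ} {R : ℕ} (hA : Anch G L M γ R)
    {β : V → κ} (hβ : IsCol G L β) (hβM : ∀ x ∈ M, β x = γ x) (n : ℕ) :
    ∀ φ : V → κ, IsCol G L φ → (∀ x ∈ M, φ x = γ x) →
      (Finset.univ.filter fun v => φ v ≠ β v).card ≤ n →
      Reach G L ((17 + 2 * R) * n) φ β := by
  classical
  induction n using Nat.strong_induction_on with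
  | _ n ih =>
  intro φ h hM hn
  set H := Finset.univ.filter fun v => φ v ≠ β v with hH
  have memH : ∀ v, v ∈ H ↔ φ v ≠ β v := fun v => by simp [hH]
  rcases H.eq_empty_or_nonempty with hemp | ⟨v₀, hv₀⟩
  · have : φ = β := by
      funext v
      by_contra hne
      have := (memH v).2 hne
      rw [hemp] at this
      simp at this
    rw [this]
    exact Reach.refl _ hβ
  have hMH : ∀ x ∈ M, x ∉ H := fun x hx hxH =>
    (memH x).1 hxH ((hM x hx).trans (hβM x hx).symm)
  -- the blockers are in `H`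
  have hblock : ∀ v ∈ H, ∀ x ∈ nb G φ v (β v), x ∈ H := by
    intro v hv x hx
    obtain ⟨h1, h2⟩ := mem_nb.1 hx
    rw [memH]
    intro e
    exact hβ.2 _ _ h1 (h2.symm.trans e)
  have hHpos : 0 < H.card := Finset.card_pos.2 ⟨v₀, hv₀⟩
  by_cases hex : ∃ v ∈ H, (nb G φ v (β v)).card ≤ 1
  · obtain ⟨v, hv, hle⟩ := hex
    obtain ⟨w, hwR, hw⟩ := hA v
    obtain ⟨ψ, hr, hψv, hψ⟩ := set_lemma hconn hcard hd h (hβ.1 v) hwR (by
      intro ψ hψ hag
      apply hw ψ hψ
      intro x hx
      have hxH := hMH x hx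
      rw [hag x (fun e => hxH (e ▸ hv)) (fun e => hxH (hblock v hv x e))]
      exact hM x hx)
    have hsub : (Finset.univ.filter fun v => ψ v ≠ β v) ⊆ H.erase v := by
      intro x hx
      simp only [Finset.mem_filter, Finset.mem_univ, true_and] at hx
      have hxv : x ≠ v := by
        rintro rfl
        exact hx hψv
      rw [Finset.mem_erase]
      refine ⟨hxv, ?_⟩
      by_cases hxn : x ∈ nb G φ v (β v)
      · exact hblock v hv x hxn
      · rw [memH, ← hψ x hxv hxn]; exact hx
    have hc1 := Finset.card_le_card hsub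
    rw [Finset.card_erase_of_mem hv] at hc1
    obtain ⟨m, rfl⟩ : ∃ m, n = m + 1 := ⟨n - 1, by omega⟩
    have hM' : ∀ x ∈ M, ψ x = γ x := by
      intro x hx
      have hxH := hMH x hx
      rw [hψ x (fun e => hxH (e ▸ hv)) (fun e => hxH (hblock v hv x e))]
      exact hM x hx
    have := ih m (by omega) ψ hr.right_col hM' (by omega)
    refine (hr.trans this).mono ?_
    nlinarith
  · push Not at hex
    -- every vertex of `H` is free
    have hfree : ∀ v ∈ H, Free G L φ v := by
      intro v hv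
      by_contra hf
      have Fv := frz_of_not_free h (hcard v) hf
      have := hex v hv
      obtain ⟨a, ha, b, hb, hab⟩ := Finset.one_lt_card.1 this
      have ha' := mem_nb.1 ha
      have hb' := mem_nb.1 hb
      exact hab ((Fv b hb'.1).2.2 a ha'.1 (ha'.2.trans hb'.2.symm))
    -- choose the colour
    let Xc : κ → Finset V := fun c => H.filter fun v => φ v = c
    let Yc : κ → Finset V := fun c => H.filter fun v => β v = c
    have hsel : ∃ c, (Yc c).Nonempty ∧ (Xc c).card ≤ (Yc c).card := by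
      by_contra hcon
      push Not at hcon
      have h1 : H.card = ∑ c ∈ H.image β, (Yc c).card :=
        Finset.card_eq_sum_card_fiberwise (fun x hx => Finset.mem_image_of_mem _ hx)
      have h2 : ∑ c ∈ H.image β, (Yc c).card < ∑ c ∈ H.image β, (Xc c).card := by
        apply Finset.sum_lt_sum_of_nonempty
        · exact ⟨_, Finset.mem_image_of_mem _ hv₀⟩
        · intro c hc
          obtain ⟨x, hx, rfl⟩ := Finset.mem_image.1 hc
          exact hcon _ ⟨x, by simp [Yc, hx]⟩
      have h3 : ∑ c ∈ H.image β, (Xc c).card ≤ H.card := by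
        rw [← Finset.card_biUnion]
        · apply Finset.card_le_card
          intro x hx
          rw [Finset.mem_biUnion] at hx
          obtain ⟨c, _, hx⟩ := hx
          exact (Finset.mem_filter.1 hx).1
        · intro c _ d _ hcd
          rw [Function.onFun, Finset.disjoint_left]
          intro x hx hx'
          simp only [Xc, Finset.mem_filter] at hx hx'
          exact hcd (hx.2.symm.trans hx'.2)
      omega
    obtain ⟨c, hYne, hle⟩ := hsel
    obtain ⟨φ₁, hr₁, hX₁, hX₁'⟩ := off (Xc c) c φ h (by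
      intro x hx
      simp only [Xc, Finset.mem_filter] at hx
      exact ⟨hx.2, hfree x hx.1⟩)
    obtain ⟨φ₂, hr₂, hY₂, hY₂'⟩ := onto (Yc c) c φ₁ hr₁.right_col (by
      intro y hy
      simp only [Yc, Finset.mem_filter] at hy
      refine ⟨hy.2 ▸ hβ.1 y, fun w hw hwc => ?_⟩
      have hwX : w ∉ Xc c := fun e => hX₁ w e hwc
      rw [hX₁' w hwX] at hwc
      apply hwX
      have : w ∈ nb G φ y (β y) := mem_nb.2 ⟨hw, by rw [hy.2]; exact hwc⟩
      simp only [Xc, Finset.mem_filter]
      exact ⟨hblock y hy.1 w this, hwc⟩) (by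
      intro y hy z hz hyz
      simp only [Yc, Finset.mem_filter] at hy hz
      exact hβ.2 _ _ hyz (hy.2.trans hz.2.symm))
    have hsub : (Finset.univ.filter fun v => φ₂ v ≠ β v) ⊆ H \ Yc c := by
      intro x hx
      simp only [Finset.mem_filter, Finset.mem_univ, true_and] at hx
      have hxY : x ∉ Yc c := by
        intro e
        apply hx
        rw [hY₂ x e]
        simp only [Yc, Finset.mem_filter] at e
        exact e.2.symm
      rw [Finset.mem_sdiff]
      refine ⟨?_, hxY⟩
      by_cases hxX : x ∈ Xc c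
      · exact (Finset.mem_filter.1 hxX).1
      · rw [memH, ← hX₁' x hxX, ← hY₂' x hxY]; exact hx
    have hYsub : Yc c ⊆ H := Finset.filter_subset _ _
    have hc1 := Finset.card_le_card hsub
    rw [Finset.card_sdiff_of_subset hYsub] at hc1
    have hYpos : 0 < (Yc c).card := Finset.card_pos.2 hYne
    have hYle : (Yc c).card ≤ H.card := Finset.card_le_card hYsub
    have hM' : ∀ x ∈ M, φ₂ x = γ x := by
      intro x hx
      have hxH := hMH x hx
      rw [hY₂' x (fun e => hxH (hYsub e)), hX₁' x (fun e => hxH (Finset.mem_filter.1 e).1)]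
      exact hM x hx
    obtain ⟨m, rfl⟩ : ∃ m, n = m + (Yc c).card := ⟨n - (Yc c).card, by omega⟩
    have := ih m (by omega) φ₂ hr₂.right_col hM' (by omega)
    refine ((hr₁.trans hr₂).trans this).mono ?_
    nlinarith

end RC
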